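import Pool.Agent.PSG.Pf.Step
import Pool.Agent.PSG.Root

/-!
# PSG-PfAll: Pfister's theorem over fields all of whose irreducible polynomials have `ℓ`-power degree
-/

namespace Pool.Agent.PSG

universe u

private theorem pfa_zero {ℓ : ℕ} (hℓ : ℓ.Prime) {D : ℕ} : Pf.{u} ℓ D 0 := by
  intro K _ hK f hf
  refine ⟨K, inferInstance, Algebra.id K, inferInstance, ?_, fun _ => 1, ?_, fun i => i.elim0⟩
  · rw [Module.finrank_self]
    exact fun h => hℓ.one_lt.ne' (Nat.dvd_one.1 h)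
  · intro h
    exact one_ne_zero (congrFun h 0)

private theorem pfa_all {ℓ : ℕ} (hℓ : ℓ.Prime) {D : ℕ} (hD : ¬ ℓ ∣ D) : ∀ n : ℕ, Pf.{u} ℓ D n
  | 0 => pfa_zero hℓ
  | n + 1 => pf_step hℓ hD (pfa_all hℓ hD n)

private theorem pfa_surj {ℓ : ℕ} {K : Type u} [Field K] (hs : Spec ℓ K) {E : Type u} [Field E]
    [Algebra K E] [FiniteDimensional K E] (hE : ¬ ℓ ∣ Module.finrank K E) (α : E) :
    ∃ c : K, algebraMap K E c = α := by
  have hint : IsIntegral K α := Algebra.IsIntegral.isIntegral α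
  obtain ⟨k, hk⟩ := hs _ (minpoly.irreducible hint)
  have hd : (minpoly K α).natDegree ∣ Module.finrank K E := minpoly.degree_dvd hint
  have hk0 : k = 0 := by
    by_contra h
    apply hE
    refine dvd_trans ?_ hd
    rw [hk]
    exact dvd_pow_self ℓ h
  rw [hk0, pow_zero] at hk
  have h1 : (minpoly K α).degree = 1 := by
    rw [Polynomial.degree_eq_natDegree (minpoly.ne_zero hint), hk, Nat.cast_one]
  obtain ⟨c, hc⟩ := minpoly.mem_range_of_degree_eq_one K α h1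
  exact ⟨c, hc⟩

theorem spec_zero {ℓ : ℕ} (hℓ : ℓ.Prime) {D : ℕ} (hD : ¬ ℓ ∣ D) {K : Type u} [Field K]
    (hK : (ℓ : K) ≠ 0) (hs : Spec ℓ K) {n : ℕ} (f : Fin n → MvPolynomial (Fin (n + 1)) K)
    (hf : ∀ i, (f i).IsHomogeneous D) :
    ∃ x : Fin (n + 1) → K, x ≠ 0 ∧ ∀ i, MvPolynomial.eval x (f i) = 0 := by
  obtain ⟨E, _, _, _, hE, x, hx, hx0⟩ := pfa_all hℓ hD n K hK f hf
  choose y hy using fun i => pfa_surj hs hE (x i)
  refine ⟨y, fun h => hx ?_, fun i => ?_⟩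
  · funext i
    rw [← hy, h, Pi.zero_apply, map_zero, Pi.zero_apply]
  · have h1 := hx0 i
    have h2 : x = algebraMap K E ∘ y := funext fun i => (hy i).symm
    rw [h2, MvPolynomial.aeval_algebraMap_apply, MvPolynomial.aeval_eq_eval] at h1
    exact (algebraMap K E).injective (h1.trans (map_zero _).symm)

end Pool.Agent.PSG
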