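import Mathlib

/-! # PSG-PfInt: coordinates on a projective curve avoiding `X_a = X_b = 0` are integral -/

namespace Pool.Agent.PSG

universe u

private theorem aeval_scale {k : Type u} [Field k] {σ : Type} {E : Type u} [Field E] [Algebra k E]
    {p : MvPolynomial σ k} {D : ℕ} (hp : p.IsHomogeneous D) (x : σ → E) (c : E) :
    MvPolynomial.aeval (fun j => x j * c) p = MvPolynomial.aeval x p * c ^ D := by
  rw [MvPolynomial.aeval_def, MvPolynomial.eval₂_eq, MvPolynomial.aeval_def,
    MvPolynomial.eval₂_eq, Finset.sum_mul]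
  refine Finset.sum_congr rfl fun d hd => ?_
  have h1 : ∑ i ∈ d.support, d i = D := by
    have h2 := hp (MvPolynomial.mem_support_iff.1 hd)
    have h3 : Finsupp.degree d = Finsupp.weight (1 : σ → ℕ) d := by
      rw [Finsupp.degree_eq_weight_one]
      rfl
    rw [← h3] at h2
    exact h2
  rw [← h1, ← Finset.prod_pow_eq_pow_sum, mul_assoc, ← Finset.prod_mul_distrib]
  congr 1
  exact Finset.prod_congr rfl fun i _ => mul_pow _ _ _

/-- reduction modulo the maximal ideal of a valuation ring -/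
private theorem resid {k : Type u} [Field k] {σ : Type} {E : Type u} [Field E] [Algebra k E]
    (B : ValuationSubring E) (hk : ∀ c : k, algebraMap k E c ∈ B) (z : σ → E)
    (hz : ∀ j, z j ∈ B) :
    ∃ (Ω : Type u) (_ : Field Ω) (_ : Algebra k Ω) (y : σ → Ω),
      ∀ p : MvPolynomial σ k, MvPolynomial.aeval z p ∈ B ∧
        (MvPolynomial.aeval y p = 0 ↔ MvPolynomial.aeval z p ∈ B.nonunits) := by
  let φ : k →+* B := (algebraMap k E).codRestrict B hk
  let _ : Algebra k (IsLocalRing.ResidueField B) := ((IsLocalRing.residue B).comp φ).toAlgebra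
  refine ⟨IsLocalRing.ResidueField B, inferInstance, inferInstance,
    fun j => IsLocalRing.residue B ⟨z j, hz j⟩, fun p => ?_⟩
  set b : B := MvPolynomial.eval₂ φ (fun j => (⟨z j, hz j⟩ : B)) p with hb
  have h1 : (b : E) = MvPolynomial.aeval z p := by
    have h2 := MvPolynomial.eval₂_comp_left B.subtype φ (fun j => (⟨z j, hz j⟩ : B)) p
    rw [← hb] at h2
    exact h2
  have h3 : MvPolynomial.aeval (fun j => IsLocalRing.residue B ⟨z j, hz j⟩) p =
      IsLocalRing.residue B b := by
    have h2 := MvPolynomial.eval₂_comp_left (IsLocalRing.residue B) φ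
      (fun j => (⟨z j, hz j⟩ : B)) p
    rw [← hb] at h2
    exact h2.symm
  refine ⟨h1 ▸ b.2, ?_⟩
  rw [h3, IsLocalRing.residue_eq_zero_iff, ← h1, ValuationSubring.coe_mem_nonunits_iff]

/-- the contradiction: a point over a valuation ring whose coordinates `a` and `b` are nonunits -/
private theorem no_point {k : Type u} [Field k] {σ : Type} {ι : Type}
    (h : ι → MvPolynomial σ k) {D : ℕ} (hh : ∀ i, (h i).IsHomogeneous D) (a b : σ)
    (hV : ∀ (Ω : Type u) [Field Ω] [Algebra k Ω] (x : σ → Ω),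
      (∀ i, MvPolynomial.aeval x (h i) = 0) → x a = 0 → x b = 0 → x = 0)
    {E : Type u} [Field E] [Algebra k E] (x : σ → E) (hx : ∀ i, MvPolynomial.aeval x (h i) = 0)
    (B : ValuationSubring E) (hk : ∀ c : k, algebraMap k E c ∈ B) (i₀ : σ)
    (hmax : ∀ j, B.valuation (x j) ≤ B.valuation (x i₀))
    (h1 : B.valuation (x a) < B.valuation (x i₀)) (h2 : B.valuation (x b) < B.valuation (x i₀)) :
    False := by
  have h0 : x i₀ ≠ 0 := by
    intro h3
    rw [h3, map_zero] at h1
    exact not_lt_zero h1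
  have hv0 : 0 < B.valuation (x i₀) := (Valuation.pos_iff _).2 h0
  have hz : ∀ j, x j * (x i₀)⁻¹ ∈ B := by
    intro j
    rw [← ValuationSubring.valuation_le_one_iff, map_mul, map_inv₀, ← div_eq_mul_inv]
    exact div_le_one_of_le₀ (hmax j) zero_le
  obtain ⟨Ω, _, _, y, hy⟩ := resid B hk (fun j => x j * (x i₀)⁻¹) hz
  have hyj : ∀ j, y j = 0 ↔ x j * (x i₀)⁻¹ ∈ B.nonunits := by
    intro j
    have h3 := (hy (MvPolynomial.X j)).2
    rw [MvPolynomial.aeval_X, MvPolynomial.aeval_X] at h3
    exact h3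
  have hlt : ∀ j, B.valuation (x j) < B.valuation (x i₀) → y j = 0 := by
    intro j hj
    rw [hyj, ValuationSubring.mem_nonunits_iff, map_mul, map_inv₀, ← div_eq_mul_inv]
    exact (div_lt_one₀ hv0).2 hj
  have h4 := hV Ω y (fun i => by
    rw [(hy (h i)).2, aeval_scale (hh i), hx i, zero_mul]
    rw [ValuationSubring.mem_nonunits_iff, map_zero]
    exact zero_lt_one) (hlt a h1) (hlt b h2)
  have h5 : y i₀ = 0 := by rw [h4]; rfl
  rw [hyj, mul_inv_cancel₀ h0, ValuationSubring.mem_nonunits_iff, map_one] at h5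
  exact lt_irrefl _ h5

theorem integral_coord {k : Type u} [Field k] {σ : Type} [Finite σ] {ι : Type}
    (h : ι → MvPolynomial σ k) {D : ℕ} (hh : ∀ i, (h i).IsHomogeneous D) (a b : σ)
    (hV : ∀ (Ω : Type u) [Field Ω] [Algebra k Ω] (x : σ → Ω),
      (∀ i, MvPolynomial.aeval x (h i) = 0) → x a = 0 → x b = 0 → x = 0)
    {E : Type u} [Field E] [Algebra k E] (x : σ → E) (hx : ∀ i, MvPolynomial.aeval x (h i) = 0)
    (ha : x a = 1) (j : σ) : IsIntegral (Algebra.adjoin k {x b}) (x j) := by
  have hclo : (Algebra.adjoin k {x b}).toSubring =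
      Subring.closure (Set.range (algebraMap k E) ∪ {x b}) := Algebra.adjoin_eq_ring_closure _
  have hkey : x j ∈ (integralClosure (Subring.closure (Set.range (algebraMap k E) ∪ {x b}))
      E).toSubring := by
    rw [← iInf_valuationSubring_superset, Subring.mem_iInf]
    rintro ⟨B, hB⟩
    have hk : ∀ c : k, algebraMap k E c ∈ B := fun c => hB (Or.inl ⟨c, rfl⟩)
    have hb : x b ∈ B := hB (Or.inr rfl)
    have : Nonempty σ := ⟨a⟩
    obtain ⟨i₀, hi₀⟩ := Finite.exists_max (fun i => B.valuation (x i))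
    rcases le_or_gt (B.valuation (x i₀)) 1 with h1 | h1
    · exact B.mem_of_valuation_le_one _ ((hi₀ j).trans h1)
    · exfalso
      refine no_point h hh a b hV x hx B hk i₀ hi₀ ?_ ?_
      · rw [ha, map_one]
        exact h1
      · exact ((B.valuation_le_one_iff _).2 hb).trans_lt h1
  have hint : IsIntegral (Subring.closure (Set.range (algebraMap k E) ∪ {x b})) (x j) := hkey
  rw [← hclo] at hint
  exact hint

/-- At the places over `x b = ∞` the function `g(x) / (x b) ^ D` is a unit, if `g` and the `h i` have no common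
zero with `x a = 0`. -/
theorem unit_infty {k : Type u} [Field k] {σ : Type} [Finite σ] {ι : Type}
    (h : ι → MvPolynomial σ k) {D : ℕ} (hh : ∀ i, (h i).IsHomogeneous D) (a b : σ)
    (hV : ∀ (Ω : Type u) [Field Ω] [Algebra k Ω] (x : σ → Ω),
      (∀ i, MvPolynomial.aeval x (h i) = 0) → x a = 0 → x b = 0 → x = 0)
    (g : MvPolynomial σ k) (hg : g.IsHomogeneous D)
    (hW : ∀ (Ω : Type u) [Field Ω] [Algebra k Ω] (x : σ → Ω),
      (∀ i, MvPolynomial.aeval x (h i) = 0) → MvPolynomial.aeval x g = 0 → x a = 0 → x = 0)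
    {E : Type u} [Field E] [Algebra k E] (x : σ → E) (hx : ∀ i, MvPolynomial.aeval x (h i) = 0)
    (ha : x a = 1) (B : ValuationSubring E) (hk : ∀ c : k, algebraMap k E c ∈ B)
    (hb0 : x b ≠ 0) (hb : (x b)⁻¹ ∈ B.nonunits) :
    MvPolynomial.aeval x g / x b ^ D ∈ B ∧ MvPolynomial.aeval x g ≠ 0 ∧
      (MvPolynomial.aeval x g / x b ^ D)⁻¹ ∈ B := by
  have : Nonempty σ := ⟨a⟩
  have hvb : 1 < B.valuation (x b) := by
    rw [ValuationSubring.mem_nonunits_iff, map_inv₀] at hb
    have h1 : 0 < B.valuation (x b) := (Valuation.pos_iff _).2 hb0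
    exact (inv_lt_one₀ h1).1 hb
  have hv0 : 0 < B.valuation (x b) := (Valuation.pos_iff _).2 hb0
  obtain ⟨i₀, hi₀⟩ := Finite.exists_max (fun i => B.valuation (x i))
  have hi₀b : B.valuation (x i₀) ≤ B.valuation (x b) := by
    by_contra hcon
    push Not at hcon
    refine no_point h hh a b hV x hx B hk i₀ hi₀ ?_ hcon
    rw [ha, map_one]
    exact hvb.trans hcon
  have hz : ∀ j, x j * (x b)⁻¹ ∈ B := by
    intro j
    rw [← ValuationSubring.valuation_le_one_iff, map_mul, map_inv₀, ← div_eq_mul_inv]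
    exact div_le_one_of_le₀ ((hi₀ j).trans hi₀b) zero_le
  obtain ⟨Ω, _, _, y, hy⟩ := resid B hk (fun j => x j * (x b)⁻¹) hz
  have hyj : ∀ j, y j = 0 ↔ x j * (x b)⁻¹ ∈ B.nonunits := by
    intro j
    have h3 := (hy (MvPolynomial.X j)).2
    rw [MvPolynomial.aeval_X, MvPolynomial.aeval_X] at h3
    exact h3
  have hG : MvPolynomial.aeval (fun j => x j * (x b)⁻¹) g = MvPolynomial.aeval x g / x b ^ D := by
    rw [aeval_scale hg, inv_pow, div_eq_mul_inv]
  have hnu : MvPolynomial.aeval x g / x b ^ D ∉ B.nonunits := by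
    intro hcon
    rw [← hG] at hcon
    have h4 := hW Ω y (fun i => by
      rw [(hy (h i)).2, aeval_scale (hh i), hx i, zero_mul]
      rw [ValuationSubring.mem_nonunits_iff, map_zero]
      exact zero_lt_one) ((hy g).2.2 hcon) (by
      rw [hyj, ha, one_mul]
      exact hb)
    have h5 : y b = 0 := by rw [h4]; rfl
    rw [hyj, mul_inv_cancel₀ hb0, ValuationSubring.mem_nonunits_iff, map_one] at h5
    exact lt_irrefl _ h5
  have hmem : MvPolynomial.aeval x g / x b ^ D ∈ B := by
    rw [← hG]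
    exact (hy g).1
  have hv1 : B.valuation (MvPolynomial.aeval x g / x b ^ D) = 1 := by
    rw [ValuationSubring.mem_nonunits_iff, not_lt] at hnu
    exact le_antisymm ((B.valuation_le_one_iff _).2 hmem) hnu
  refine ⟨hmem, ?_, ?_⟩
  · intro h5
    rw [h5, zero_div, map_zero] at hv1
    exact zero_ne_one hv1
  · rw [← ValuationSubring.valuation_le_one_iff, map_inv₀, hv1, inv_one]

end Pool.Agent.PSG
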