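import Pool.Agent.PSG.Pf.SpS

/-!
# PSG-PfNrm: the degree of the norm of a function with a pole of order `D` at all places at infinity

`E / k(u)` finite (`k(u) = RatFunc k`), `g ∈ E`; at every valuation subring `B` of `E` containing `k` with
`u⁻¹` a nonunit the quotient `g / u ^ D` is a unit.  Then the norm of `g` to `k(u)` has degree `D [E : k(u)]`.
-/

namespace Pool.Agent.PSG

universe u

private noncomputable def nrmA (k : Type u) [Field k] : ValuationSubring (RatFunc k) :=
  haveI := Classical.decEq (RatFunc k)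
  (RatFunc.inftyValuation k).valuationSubring

private theorem mem_nrmA {k : Type u} [Field k] {r : RatFunc k} (h : r ≠ 0) :
    r ∈ nrmA k ↔ r.intDegree ≤ 0 := by
  classical
  have : r ∈ nrmA k ↔ RatFunc.inftyValuation k r ≤ 1 := by
    rw [nrmA, Valuation.mem_valuationSubring_iff]
  rw [this, RatFunc.inftyValuation_apply, RatFunc.inftyValuation_of_nonzero k h, ← WithZero.exp_zero,
    WithZero.exp_le_exp]

private theorem nrmA_C {k : Type u} [Field k] (c : k) : algebraMap k (RatFunc k) c ∈ nrmA k := by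
  by_cases hc : c = 0
  · rw [hc, map_zero]
    exact (nrmA k).zero_mem
  · have h1 : algebraMap k (RatFunc k) c ≠ 0 := by
      rw [Ne, map_eq_zero]
      exact hc
    rw [mem_nrmA h1]
    rw [RatFunc.algebraMap_eq_C, RatFunc.intDegree_C]

private theorem nrmA_Xinv {k : Type u} [Field k] : (RatFunc.X : RatFunc k)⁻¹ ∈ nrmA k := by
  rw [mem_nrmA (inv_ne_zero RatFunc.X_ne_zero), RatFunc.intDegree_inv, RatFunc.intDegree_X]
  norm_num

private theorem intDegree_X_pow {k : Type u} [Field k] (n : ℕ) :
    (RatFunc.X ^ n : RatFunc k).intDegree = n := by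
  induction n with
  | zero => simp
  | succ n ih =>
    rw [pow_succ, RatFunc.intDegree_mul (pow_ne_zero _ RatFunc.X_ne_zero) RatFunc.X_ne_zero, ih,
      RatFunc.intDegree_X]
    push_cast
    ring

private theorem nrm_integral {k : Type u} [Field k] {E : Type u} [Field E] [Algebra k E]
    [Algebra (RatFunc k) E] [IsScalarTower k (RatFunc k) E] [FiniteDimensional (RatFunc k) E]
    (ψ : E)
    (h : ∀ B : ValuationSubring E, (∀ c : k, algebraMap k E c ∈ B) →
      (algebraMap (RatFunc k) E RatFunc.X)⁻¹ ∈ B.nonunits → ψ ∈ B) :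
    IsIntegral (nrmA k) ψ := by
  have h1 : ψ ∈ (integralClosure (nrmA k) E).toSubring := by
    rw [Subring.eq_iInf_of_isIntegrallyClosedIn (R := (integralClosure (nrmA k) E).toSubring),
      Subring.mem_iInf]
    rintro ⟨V, hV⟩
    have hA : ∀ r : RatFunc k, r ∈ nrmA k → algebraMap (RatFunc k) E r ∈ V := by
      intro r hr
      exact hV (show algebraMap (RatFunc k) E r ∈ integralClosure (nrmA k) E from
        isIntegral_algebraMap (x := (⟨r, hr⟩ : nrmA k)))
    have hC : ∀ c : k, algebraMap k E c ∈ V := by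
      intro c
      rw [IsScalarTower.algebraMap_apply k (RatFunc k) E]
      exact hA _ (nrmA_C c)
    by_cases hn : (algebraMap (RatFunc k) E RatFunc.X)⁻¹ ∈ V.nonunits
    · exact h V hC hn
    · rw [ValuationSubring.inv_mem_nonunits_iff, not_or, not_not] at hn
      have hR : ∀ r : RatFunc k, algebraMap (RatFunc k) E r ∈ V := by
        intro r
        by_cases hr : r = 0
        · rw [hr, map_zero]
          exact V.zero_mem
        · have e1 : r = RatFunc.X ^ r.intDegree.toNat * (r * (RatFunc.X ^ r.intDegree.toNat)⁻¹) := by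
            rw [mul_comm, mul_assoc, inv_mul_cancel₀ (pow_ne_zero _ RatFunc.X_ne_zero), mul_one]
          rw [e1, map_mul, map_pow]
          refine V.mul_mem _ _ (pow_mem hn.2 _) (hA _ ?_)
          have hp : (RatFunc.X ^ r.intDegree.toNat : RatFunc k) ≠ 0 :=
            pow_ne_zero _ RatFunc.X_ne_zero
          rw [mem_nrmA (mul_ne_zero hr (inv_ne_zero hp)), RatFunc.intDegree_mul hr (inv_ne_zero hp),
            RatFunc.intDegree_inv, intDegree_X_pow]
          omega
      have hint : IsIntegral (RatFunc k) ψ := Algebra.IsIntegral.isIntegral ψ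
      obtain ⟨p, hp1, hp2⟩ := hint
      let f : RatFunc k →+* V := (algebraMap (RatFunc k) E).codRestrict V hR
      have hf : (algebraMap V E).comp f = algebraMap (RatFunc k) E := by
        ext r
        rfl
      have h2 : IsIntegral V ψ := by
        refine ⟨p.map f, hp1.map f, ?_⟩
        rw [Polynomial.eval₂_map, hf]
        exact hp2
      obtain ⟨y, hy⟩ := (IsIntegrallyClosed.isIntegral_iff (R := V) (K := E)).1 h2
      show ψ ∈ V
      rw [← hy]
      exact y.2
  exact h1

theorem intDegree_norm {k : Type u} [Field k] {E : Type u} [Field E] [Algebra k E]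
    [Algebra (RatFunc k) E] [IsScalarTower k (RatFunc k) E] [FiniteDimensional (RatFunc k) E]
    (g : E) (D : ℕ) (h0 : g ≠ 0)
    (hg : ∀ B : ValuationSubring E, (∀ c : k, algebraMap k E c ∈ B) →
      (algebraMap (RatFunc k) E RatFunc.X)⁻¹ ∈ B.nonunits →
      g / algebraMap (RatFunc k) E RatFunc.X ^ D ∈ B ∧
        (g / algebraMap (RatFunc k) E RatFunc.X ^ D)⁻¹ ∈ B) :
    (Algebra.norm (RatFunc k) g).intDegree = (D * Module.finrank (RatFunc k) E : ℕ) := by
  have hX : algebraMap (RatFunc k) E RatFunc.X ≠ 0 := by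
    rw [Ne, map_eq_zero]
    exact RatFunc.X_ne_zero
  set ψ : E := g / algebraMap (RatFunc k) E RatFunc.X ^ D with hψ
  have hψ0 : ψ ≠ 0 := div_ne_zero h0 (pow_ne_zero _ hX)
  have i1 : IsIntegral (nrmA k) ψ := nrm_integral ψ (fun B h1 h2 => (hg B h1 h2).1)
  have i2 : IsIntegral (nrmA k) ψ⁻¹ := nrm_integral ψ⁻¹ (fun B h1 h2 => (hg B h1 h2).2)
  have j1 : Algebra.norm (RatFunc k) ψ ∈ nrmA k := by
    obtain ⟨y, hy⟩ := (IsIntegrallyClosed.isIntegral_iff (R := nrmA k) (K := RatFunc k)).1
      (Algebra.isIntegral_norm (RatFunc k) i1)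
    rw [← hy]
    exact y.2
  have j2 : (Algebra.norm (RatFunc k) ψ)⁻¹ ∈ nrmA k := by
    obtain ⟨y, hy⟩ := (IsIntegrallyClosed.isIntegral_iff (R := nrmA k) (K := RatFunc k)).1
      (Algebra.isIntegral_norm (RatFunc k) i2)
    rw [← Algebra.norm_inv, ← hy]
    exact y.2
  have hN : Algebra.norm (RatFunc k) ψ ≠ 0 := Algebra.norm_ne_zero_iff.2 hψ0
  rw [mem_nrmA hN] at j1
  rw [mem_nrmA (inv_ne_zero hN), RatFunc.intDegree_inv] at j2
  have hg1 : g = ψ * algebraMap (RatFunc k) E (RatFunc.X ^ D) := by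
    rw [hψ, map_pow]
    field_simp
  have hN2 : Algebra.norm (RatFunc k) g =
      Algebra.norm (RatFunc k) ψ * RatFunc.X ^ (D * Module.finrank (RatFunc k) E) := by
    conv_lhs => rw [hg1]
    rw [map_mul, Algebra.norm_algebraMap, ← pow_mul]
  rw [hN2, RatFunc.intDegree_mul hN (pow_ne_zero _ RatFunc.X_ne_zero), intDegree_X_pow]
  omega

end Pool.Agent.PSG
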