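import Pool.Agent.PSG.Pf.SpS

/-!
# PSG-PfQuo: the coordinate ring modulo a function

`E / k(u)` finite, generated by finitely many elements `x j` integral over `k[u]`; `g ≠ 0` in the ring
`B = k[u][x j]`.  Then `B / (g)` is finite dimensional over `k` and its dimension is the degree of the norm of `g`.

`B` is a free module over `k[u]` and the norm commutes with localization.
-/

namespace Pool.Agent.PSG

universe u

open Polynomial nonZeroDivisors

private theorem quo_denom {k : Type u} [Field k] {E : Type u} [Field E]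
    [Algebra k[X] E] [Algebra (RatFunc k) E] [IsScalarTower k[X] (RatFunc k) E]
    [FiniteDimensional (RatFunc k) E] {σ : Type} (x : σ → E)
    (hgen : IntermediateField.adjoin (RatFunc k) (Set.range x) = ⊤) (e : E) :
    ∃ s : k[X], s ≠ 0 ∧ algebraMap k[X] E s * e ∈ Algebra.adjoin k[X] (Set.range x) := by
  have h1 : Algebra.adjoin (RatFunc k) (Set.range x) = ⊤ := by
    rw [← IntermediateField.adjoin_toSubalgebra_of_isAlgebraic
      (fun y _ => Algebra.IsAlgebraic.isAlgebraic y), hgen, IntermediateField.top_toSubalgebra]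
  have h2 : e ∈ Algebra.adjoin (RatFunc k) (Set.range x) := by
    rw [h1]
    exact Algebra.mem_top
  induction h2 using Algebra.adjoin_induction with
  | mem y hy =>
    exact ⟨1, one_ne_zero, by rw [map_one, one_mul]; exact Algebra.subset_adjoin hy⟩
  | algebraMap r =>
    obtain ⟨p, q, hq, rfl⟩ := IsFractionRing.div_surjective (A := k[X]) r
    refine ⟨q, nonZeroDivisors.ne_zero hq, ?_⟩
    have h3 : algebraMap (RatFunc k) E (algebraMap k[X] (RatFunc k) q) ≠ 0 := by
      intro h4
      have h5 := (map_eq_zero (algebraMap (RatFunc k) E)).1 h4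
      exact nonZeroDivisors.ne_zero hq
        ((map_eq_zero_iff _ (IsFractionRing.injective k[X] (RatFunc k))).1 h5)
    have h4 : algebraMap k[X] E q * algebraMap (RatFunc k) E
        (algebraMap k[X] (RatFunc k) p / algebraMap k[X] (RatFunc k) q) =
        algebraMap k[X] E p := by
      rw [map_div₀, IsScalarTower.algebraMap_apply k[X] (RatFunc k) E q,
        IsScalarTower.algebraMap_apply k[X] (RatFunc k) E p, mul_div_cancel₀ _ h3]
    rw [h4]
    exact Subalgebra.algebraMap_mem _ p
  | add y z _ _ hy hz =>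
    obtain ⟨s, hs, hs'⟩ := hy
    obtain ⟨t, ht, ht'⟩ := hz
    refine ⟨s * t, mul_ne_zero hs ht, ?_⟩
    have h3 : algebraMap k[X] E (s * t) * (y + z) =
        algebraMap k[X] E t * (algebraMap k[X] E s * y) +
          algebraMap k[X] E s * (algebraMap k[X] E t * z) := by
      rw [map_mul]
      ring
    rw [h3]
    exact Subalgebra.add_mem _ (Subalgebra.mul_mem _ (Subalgebra.algebraMap_mem _ t) hs')
      (Subalgebra.mul_mem _ (Subalgebra.algebraMap_mem _ s) ht')
  | mul y z _ _ hy hz =>
    obtain ⟨s, hs, hs'⟩ := hy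
    obtain ⟨t, ht, ht'⟩ := hz
    refine ⟨s * t, mul_ne_zero hs ht, ?_⟩
    have h3 : algebraMap k[X] E (s * t) * (y * z) =
        (algebraMap k[X] E s * y) * (algebraMap k[X] E t * z) := by
      rw [map_mul]
      ring
    rw [h3]
    exact Subalgebra.mul_mem _ hs' ht'

private theorem quo_loc {k : Type u} [Field k] {E : Type u} [Field E]
    [Algebra k[X] E] (hinj : Function.Injective (algebraMap k[X] E)) (B : Subalgebra k[X] E)
    (h : ∀ e : E, ∃ s : k[X], s ≠ 0 ∧ algebraMap k[X] E s * e ∈ B) :
    IsLocalization (Algebra.algebraMapSubmonoid B k[X]⁰) E := by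
  refine ⟨?_, ?_, ?_⟩
  · rintro ⟨_, s, hs, rfl⟩
    have h1 : algebraMap B E (algebraMap k[X] B s) = algebraMap k[X] E s := rfl
    change IsUnit (algebraMap B E (algebraMap k[X] B s))
    rw [h1]
    exact IsUnit.mk0 _ fun h2 => nonZeroDivisors.ne_zero hs ((map_eq_zero_iff _ hinj).1 h2)
  · intro e
    obtain ⟨s, hs, hs'⟩ := h e
    refine ⟨(⟨_, hs'⟩, ⟨algebraMap k[X] B s, s, mem_nonZeroDivisors_of_ne_zero hs, rfl⟩), ?_⟩
    exact mul_comm _ _
  · intro y z hyz
    exact ⟨1, by rw [Subtype.ext (hyz : (y : E) = z)]⟩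

private theorem quo_aux {k : Type u} [Field k] {E : Type u} [Field E] [Algebra k E]
    [Algebra k[X] E] [IsScalarTower k k[X] E] [Algebra (RatFunc k) E]
    [IsScalarTower k[X] (RatFunc k) E] [FiniteDimensional (RatFunc k) E]
    {σ : Type} [Finite σ] (x : σ → E) (hx : ∀ j, IsIntegral k[X] (x j))
    (hgen : IntermediateField.adjoin (RatFunc k) (Set.range x) = ⊤)
    (G : MvPolynomial σ k) (hG : MvPolynomial.aeval x G ≠ 0) :
    ∃ (A : Type u) (_ : CommRing A) (_ : Algebra k A), Module.Finite k A ∧
      (Module.finrank k A : ℤ) = (Algebra.norm (RatFunc k) (MvPolynomial.aeval x G)).intDegree ∧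
      ∃ y : σ → A, MvPolynomial.aeval y G = 0 ∧
        ∀ H : MvPolynomial σ k, MvPolynomial.aeval x H = 0 → MvPolynomial.aeval y H = 0 := by
  have hinj : Function.Injective (algebraMap k[X] E) := by
    rw [IsScalarTower.algebraMap_eq k[X] (RatFunc k) E]
    exact (algebraMap (RatFunc k) E).injective.comp (IsFractionRing.injective k[X] (RatFunc k))
  obtain ⟨B, hB⟩ : ∃ B : Subalgebra k[X] E, B = Algebra.adjoin k[X] (Set.range x) := ⟨_, rfl⟩
  have : Module.IsTorsionFree k[X] E := Module.isTorsionFree_iff_algebraMap_injective.2 hinj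
  have hfin : Module.Finite k[X] B := by
    rw [hB]
    exact Module.Finite.iff_fg.2 (fg_adjoin_of_finite (Set.finite_range x) (by
      rintro _ ⟨j, rfl⟩
      exact hx j))
  have hfree : Module.Free k[X] B := Module.free_of_finite_type_torsion_free'
  have hloc : IsLocalization (Algebra.algebraMapSubmonoid B k[X]⁰) E :=
    quo_loc hinj B (by rw [hB]; exact quo_denom x hgen)
  have htow : IsScalarTower k k[X] B := IsScalarTower.of_algebraMap_eq fun r =>
    Subtype.ext (IsScalarTower.algebraMap_apply k k[X] E r)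
  obtain ⟨xB, hxB⟩ : ∃ xB : σ → B, ∀ j, (xB j : E) = x j :=
    ⟨fun j => ⟨x j, by rw [hB]; exact Algebra.subset_adjoin ⟨j, rfl⟩⟩, fun _ => rfl⟩
  have hval : ∀ H : MvPolynomial σ k, ((MvPolynomial.aeval xB H : B) : E) =
      MvPolynomial.aeval x H := by
    intro H
    have h1 := MvPolynomial.comp_aeval_apply xB (B.val.restrictScalars k) H
    have h2 : (fun i => (B.val.restrictScalars k) (xB i)) = x := funext hxB
    rw [h2] at h1
    exact h1
  obtain ⟨g, hg⟩ : ∃ g : B, g = MvPolynomial.aeval xB G := ⟨_, rfl⟩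
  have hg0 : g ≠ 0 := by
    intro h1
    apply hG
    rw [← hval G, ← hg, h1]
    rfl
  have hI : Ideal.span {g} ≠ (⊥ : Ideal B) := by
    rw [Ne, Ideal.span_singleton_eq_bot]
    exact hg0
  obtain ⟨b, -⟩ : ∃ b : Module.Basis (Module.Free.ChooseBasisIndex k[X] B) k[X] B, True :=
    ⟨Module.Free.chooseBasis k[X] B, trivial⟩
  refine ⟨B ⧸ Ideal.span {g}, inferInstance, inferInstance, ?_, ?_, fun j => Ideal.Quotient.mk _ (xB j),
    ?_, ?_⟩
  · have e := Ideal.quotientEquivDirectSum k b hI
    have h1 : ∀ i, FiniteDimensional k (k[X] ⧸ Ideal.span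
      ({(Ideal.span {g}).smithCoeffs b hI i} : Set k[X])) := fun i =>
        PowerBasis.finite <| AdjoinRoot.powerBasis <| (Ideal.span {g}).smithCoeffs_ne_zero b hI i
    have h2 := DirectSum.linearEquivFunOnFintype k (Module.Free.ChooseBasisIndex k[X] B)
      (fun i => k[X] ⧸ Ideal.span ({(Ideal.span {g}).smithCoeffs b hI i} : Set k[X]))
    exact Module.Finite.equiv (e.trans h2).symm
  · rw [finrank_quotient_span_eq_natDegree_norm b hg0]
    have h1 := Algebra.norm_localization k[X] (Rₘ := RatFunc k) (Sₘ := E) k[X]⁰ g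
    have h2 : algebraMap B E g = MvPolynomial.aeval x G := by
      rw [← hval G, ← hg]
      rfl
    rw [h2] at h1
    rw [h1, RatFunc.intDegree_polynomial]
  · have h1 := MvPolynomial.comp_aeval_apply (B := B ⧸ Ideal.span {g}) xB
      (Ideal.Quotient.mkₐ k (Ideal.span {g})) G
    rw [← hg] at h1
    exact h1.symm.trans (Ideal.Quotient.eq_zero_iff_mem.2 (Ideal.mem_span_singleton_self g))
  · intro H hH
    have h1 := MvPolynomial.comp_aeval_apply (B := B ⧸ Ideal.span {g}) xB
      (Ideal.Quotient.mkₐ k (Ideal.span {g})) H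
    have h2 : (MvPolynomial.aeval xB H : B) = 0 := by
      apply Subtype.ext
      rw [hval H, hH]
      rfl
    rw [h2, map_zero] at h1
    exact h1.symm

theorem exists_quot {k : Type u} [Field k] {E : Type u} [Field E] [Algebra k E]
    [Algebra (RatFunc k) E] [IsScalarTower k (RatFunc k) E] [FiniteDimensional (RatFunc k) E]
    {σ : Type} [Finite σ] (x : σ → E)
    (hx : ∀ j, (ratMap k E).IsIntegralElem (x j))
    (hgen : IntermediateField.adjoin (RatFunc k) (Set.range x) = ⊤)
    (G : MvPolynomial σ k) (hG : MvPolynomial.aeval x G ≠ 0) :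
    ∃ (A : Type u) (_ : CommRing A) (_ : Algebra k A), Module.Finite k A ∧
      (Module.finrank k A : ℤ) = (Algebra.norm (RatFunc k) (MvPolynomial.aeval x G)).intDegree ∧
      ∃ y : σ → A, MvPolynomial.aeval y G = 0 ∧
        ∀ H : MvPolynomial σ k, MvPolynomial.aeval x H = 0 → MvPolynomial.aeval y H = 0 := by
  let _ : Algebra k[X] E := (ratMap k E).toAlgebra
  have h1 : IsScalarTower k[X] (RatFunc k) E := IsScalarTower.of_algebraMap_eq fun _ => rfl
  have h2 : IsScalarTower k k[X] E := by
    refine IsScalarTower.of_algebraMap_eq fun r => ?_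
    have h3 : algebraMap k[X] E (algebraMap k k[X] r) =
        algebraMap (RatFunc k) E (algebraMap k[X] (RatFunc k) (algebraMap k k[X] r)) := rfl
    rw [h3, ← IsScalarTower.algebraMap_apply k k[X] (RatFunc k),
      ← IsScalarTower.algebraMap_apply k (RatFunc k) E]
  exact quo_aux x hx hgen G hG

end Pool.Agent.PSG
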