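import Pool.Agent.PSG.Pf.Res
import Pool.Agent.PSG.Pf.Int
import Pool.Agent.PSG.Pf.Nrm
import Pool.Agent.PSG.Pf.Quo

/-!
# PSG-PfCurve: the intersection of a curve with a hypersurface

`h i`, `g` homogeneous of degree `D`, `ℓ ∤ D`; over no extension field is there a nonzero common zero of the
`h i` with `x a = x b = 0` (`hV`), nor one of the `h i` and `g` with `x a = 0` (`hW`).  Given is a zero `x` of the
`h i` over `E / k(u)`, finite of degree prime to `ℓ`, with `x a = 1`, `x b = u`.  Then the `h i` and `g` have a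
nonzero common zero over a finite extension of `k` of degree prime to `ℓ`.

PLAN.  Let `E' := IntermediateField.adjoin (RatFunc k) (Set.range x)`, `x'` the family `x` in `E'`;
`[E' : k(u)]` divides `[E : k(u)]` (`Module.finrank_mul_finrank`), so it is prime to `ℓ`; `range x'` generates
`E'` (`IntermediateField.lift_injective`, `IntermediateField.lift_adjoin`, as in `rad_top` in PSF/Rad.lean).
`h i (x') = 0` (injectivity of `E' → E`).  From now on everything is over `E'`.
1. `integral_coord h hh a b hV x' .. j`: `x' j` is integral over `Algebra.adjoin k {u}`; so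
   `(ratMap k E').IsIntegralElem (x' j)`, as every element of `Algebra.adjoin k {u}` is the image of a
   polynomial (`Algebra.adjoin_singleton_eq_range_aeval`; lift the monic polynomial:
   `Polynomial.lifts_and_natDegree_eq_and_monic`, or `RingHom.IsIntegralElem` / `IsIntegral.tower_top`-type lemmas).
2. There is a valuation subring `B` of `E'` containing `k` with `u⁻¹` a nonunit
   (`Ideal.image_subset_nonunits_valuationSubring` for the subring `k[u⁻¹]` and its ideal `(u⁻¹)`, proper because
   `u⁻¹` is transcendental over `k`; same argument as in PSG-PfEmp).  So `unit_infty` gives `g(x') ≠ 0`, and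
   `unit_infty` for all such `B` is the assumption `hg` of `intDegree_norm` (`G = g(x')`).
3. `intDegree_norm`: `intDegree (norm G) = D [E' : k(u)]`.  `exists_quot x' .. g`: an algebra `A` of dimension
   `D [E' : k(u)]`, prime to `ℓ` (`hℓ.dvd_mul`), and `y : σ → A` with `g(y) = 0`, and `H(y) = 0` for all `H` with
   `H(x') = 0`: for `H = h i`, and for `H = X a - 1`: so `y a = 1`.
4. `exists_residue`: `κ := A ⧸ I` (`Ideal.Quotient.field`), the residues of the `y j`; the residue of `y a` is
   `1 ≠ 0`.  Finite dimensional: a quotient of `A`.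
-/

namespace Pool.Agent.PSG

universe u

private theorem ratMap_eq {k : Type u} [Field k] {E : Type u} [Field E] [Algebra k E]
    [Algebra (RatFunc k) E] [IsScalarTower k (RatFunc k) E] (P : Polynomial k) :
    ratMap k E P = Polynomial.aeval (algebraMap (RatFunc k) E RatFunc.X) P := by
  have h : ratMap k E =
      (Polynomial.aeval (algebraMap (RatFunc k) E RatFunc.X) : Polynomial k →ₐ[k] E).toRingHom := by
    refine Polynomial.ringHom_ext (fun c => ?_) ?_
    · change algebraMap (RatFunc k) E (algebraMap (Polynomial k) (RatFunc k) (Polynomial.C c)) =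
        Polynomial.aeval _ (Polynomial.C c)
      rw [Polynomial.aeval_C, RatFunc.algebraMap_C, IsScalarTower.algebraMap_apply k (RatFunc k) E,
        RatFunc.algebraMap_eq_C]
    · change algebraMap (RatFunc k) E (algebraMap (Polynomial k) (RatFunc k) Polynomial.X) =
        Polynomial.aeval _ Polynomial.X
      rw [Polynomial.aeval_X, RatFunc.algebraMap_X]
  exact congrArg (fun f : Polynomial k →+* E => f P) h

private theorem ratMap_int {k : Type u} [Field k] {E : Type u} [Field E] [Algebra k E]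
    [Algebra (RatFunc k) E] [IsScalarTower k (RatFunc k) E] (z : E)
    (hz : IsIntegral (Algebra.adjoin k {algebraMap (RatFunc k) E RatFunc.X}) z) :
    (ratMap k E).IsIntegralElem z := by
  set u := algebraMap (RatFunc k) E RatFunc.X with hu
  have hr : (Algebra.adjoin k {u}) = (Polynomial.aeval u : Polynomial k →ₐ[k] E).range :=
    Algebra.adjoin_singleton_eq_range_aeval k u
  let φ : Polynomial k →+* Algebra.adjoin k {u} :=
    ((Polynomial.aeval u : Polynomial k →ₐ[k] E).codRestrict (Algebra.adjoin k {u})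
      (fun P => by rw [hr]; exact ⟨P, rfl⟩)).toRingHom
  have hφ : ∀ y : Algebra.adjoin k {u}, ∃ P, φ P = y := by
    rintro ⟨y, hy⟩
    rw [hr] at hy
    obtain ⟨P, hP⟩ := hy
    exact ⟨P, Subtype.ext hP⟩
  have hc : (algebraMap (Algebra.adjoin k {u}) E).comp φ = ratMap k E := by
    refine RingHom.ext fun P => ?_
    rw [ratMap_eq]
    rfl
  obtain ⟨p, hp, hpe⟩ := hz
  have hl : p ∈ Polynomial.lifts φ := by
    rw [Polynomial.lifts_iff_coeff_lifts]
    intro n
    exact hφ _
  obtain ⟨q, hq, -, hqm⟩ := Polynomial.lifts_and_natDegree_eq_and_monic hl hp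
  refine ⟨q, hqm, ?_⟩
  rw [← hq, Polynomial.eval₂_map, hc] at hpe
  exact hpe

private theorem exists_infty {k : Type u} [Field k] {E : Type u} [Field E] [Algebra k E]
    (u : E) (hu : Transcendental k u) :
    ∃ B : ValuationSubring E, (∀ c : k, algebraMap k E c ∈ B) ∧ u⁻¹ ∈ B.nonunits := by
  have hu' : Transcendental k u⁻¹ := fun h => hu (IsAlgebraic.inv_iff.1 h)
  have hu0 : u ≠ 0 := by
    rintro rfl
    exact hu isAlgebraic_zero
  let ψ : Polynomial k →+* E := (Polynomial.aeval u⁻¹ : Polynomial k →ₐ[k] E).toRingHom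
  have hψ : ∀ P, ψ P = Polynomial.aeval u⁻¹ P := fun P => rfl
  have hmem : u⁻¹ ∈ ψ.range := ⟨Polynomial.X, by rw [hψ, Polynomial.aeval_X]⟩
  have hI : Ideal.span {(⟨u⁻¹, hmem⟩ : ψ.range)} ≠ ⊤ := by
    intro h
    rw [Ideal.eq_top_iff_one, Ideal.mem_span_singleton'] at h
    obtain ⟨⟨a, P, hP⟩, ha⟩ := h
    have h1 : a * u⁻¹ = 1 := congrArg Subtype.val ha
    rw [← hP, hψ] at h1
    apply hu'
    refine ⟨P * Polynomial.X - 1, ?_, ?_⟩
    · intro h2
      have h3 := congrArg (Polynomial.eval 0) h2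
      simp at h3
    · rw [map_sub, map_mul, Polynomial.aeval_X, map_one, h1, sub_self]
  obtain ⟨B, hB1, hB2⟩ := Ideal.image_subset_nonunits_valuationSubring _ hI
  refine ⟨B, fun c => ?_, ?_⟩
  · exact hB1 ⟨Polynomial.C c, by rw [hψ, Polynomial.aeval_C]⟩
  · exact hB2 ⟨_, Ideal.subset_span rfl, rfl⟩

private theorem trans_X {k : Type u} [Field k] {E : Type u} [Field E] [Algebra k E]
    [Algebra (RatFunc k) E] [IsScalarTower k (RatFunc k) E] :
    Transcendental k (algebraMap (RatFunc k) E RatFunc.X) := by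
  rintro ⟨P, hP, h⟩
  rw [← ratMap_eq] at h
  apply hP
  have h1 : Function.Injective (ratMap k E) :=
    (algebraMap (RatFunc k) E).injective.comp (IsFractionRing.injective (Polynomial k) (RatFunc k))
  exact h1 (by rw [h, map_zero])

private theorem curve_aux {ℓ : ℕ} (hℓ : ℓ.Prime) {k : Type u} [Field k] {σ : Type} [Finite σ]
    {ι : Type}
    (h : ι → MvPolynomial σ k) {D : ℕ} (hD : ¬ ℓ ∣ D) (hh : ∀ i, (h i).IsHomogeneous D) (a b : σ)
    (hV : ∀ (Ω : Type u) [Field Ω] [Algebra k Ω] (x : σ → Ω),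
      (∀ i, MvPolynomial.aeval x (h i) = 0) → x a = 0 → x b = 0 → x = 0)
    (g : MvPolynomial σ k) (hg : g.IsHomogeneous D)
    (hW : ∀ (Ω : Type u) [Field Ω] [Algebra k Ω] (x : σ → Ω),
      (∀ i, MvPolynomial.aeval x (h i) = 0) → MvPolynomial.aeval x g = 0 → x a = 0 → x = 0)
    {E : Type u} [Field E] [Algebra k E] [Algebra (RatFunc k) E] [IsScalarTower k (RatFunc k) E]
    [FiniteDimensional (RatFunc k) E] (hE : ¬ ℓ ∣ Module.finrank (RatFunc k) E)
    (x : σ → E) (hx : ∀ i, MvPolynomial.aeval x (h i) = 0) (ha : x a = 1)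
    (hb : x b = algebraMap (RatFunc k) E RatFunc.X)
    (hgen : IntermediateField.adjoin (RatFunc k) (Set.range x) = ⊤) :
    ∃ (κ : Type u) (_ : Field κ) (_ : Algebra k κ), FiniteDimensional k κ ∧
      ¬ ℓ ∣ Module.finrank k κ ∧ ∃ y : σ → κ, y ≠ 0 ∧
        (∀ i, MvPolynomial.aeval y (h i) = 0) ∧ MvPolynomial.aeval y g = 0 := by
  have hint : ∀ j, (ratMap k E).IsIntegralElem (x j) := by
    intro j
    apply ratMap_int
    rw [← hb]
    exact integral_coord h hh a b hV x hx ha j
  have hb0 : x b ≠ 0 := by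
    rw [hb]
    intro h0
    exact trans_X (k := k) (E := E) (by rw [h0]; exact isAlgebraic_zero)
  have hun : ∀ B : ValuationSubring E, (∀ c : k, algebraMap k E c ∈ B) →
      (x b)⁻¹ ∈ B.nonunits → MvPolynomial.aeval x g / x b ^ D ∈ B ∧ MvPolynomial.aeval x g ≠ 0 ∧
      (MvPolynomial.aeval x g / x b ^ D)⁻¹ ∈ B :=
    fun B hk hB => unit_infty h hh a b hV g hg hW x hx ha B hk hb0 hB
  obtain ⟨B, hB1, hB2⟩ := exists_infty (k := k) (x b) (by rw [hb]; exact trans_X)
  have hG0 : MvPolynomial.aeval x g ≠ 0 := (hun B hB1 hB2).2.1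
  have hdeg := intDegree_norm (k := k) (MvPolynomial.aeval x g) D hG0 (by
    intro B' h1 h2
    rw [← hb] at h2 ⊢
    exact ⟨(hun B' h1 h2).1, (hun B' h1 h2).2.2⟩)
  obtain ⟨A, hA1, hA2, hAf, hAd, y, hy0, hyH⟩ := exists_quot x hint hgen g hG0
  have hAl : ¬ ℓ ∣ Module.finrank k A := by
    rw [hdeg] at hAd
    have h1 : Module.finrank k A = D * Module.finrank (RatFunc k) E := by exact_mod_cast hAd
    rw [h1, hℓ.dvd_mul]
    rintro (h2 | h2)
    · exact hD h2
    · exact hE h2
  obtain ⟨I, hI, hIl⟩ := exists_residue hAl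
  have hya : y a = 1 := by
    have h1 := hyH (MvPolynomial.X a - 1) (by rw [map_sub, MvPolynomial.aeval_X, map_one, ha,
      sub_self])
    rw [map_sub, MvPolynomial.aeval_X, map_one] at h1
    exact sub_eq_zero.1 h1
  have hmk : ∀ H : MvPolynomial σ k, MvPolynomial.aeval y H = 0 →
      MvPolynomial.aeval (fun j => Ideal.Quotient.mkₐ k I (y j)) H = 0 := by
    intro H hH
    rw [← MvPolynomial.comp_aeval_apply, hH, map_zero]
  refine ⟨A ⧸ I, Ideal.Quotient.field I, inferInstance, ?_, hIl,
    fun j => Ideal.Quotient.mkₐ k I (y j), ?_, ?_, ?_⟩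
  · exact Module.Finite.of_surjective (Ideal.Quotient.mkₐ k I).toLinearMap
      (Ideal.Quotient.mkₐ_surjective k I)
  · intro h0
    have h1 : Ideal.Quotient.mkₐ k I (y a) = 0 := congrFun h0 a
    rw [hya, map_one] at h1
    have h2 : (1 : A) ∈ I := Ideal.Quotient.eq_zero_iff_mem.1 (by rw [map_one]; exact h1)
    exact hI.ne_top ((Ideal.eq_top_iff_one I).2 h2)
  · exact fun i => hmk (h i) (hyH (h i) (hx i))
  · exact hmk g hy0

theorem curve {ℓ : ℕ} (hℓ : ℓ.Prime) {k : Type u} [Field k] {σ : Type} [Finite σ] {ι : Type}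
    (h : ι → MvPolynomial σ k) {D : ℕ} (hD : ¬ ℓ ∣ D) (hh : ∀ i, (h i).IsHomogeneous D) (a b : σ)
    (hV : ∀ (Ω : Type u) [Field Ω] [Algebra k Ω] (x : σ → Ω),
      (∀ i, MvPolynomial.aeval x (h i) = 0) → x a = 0 → x b = 0 → x = 0)
    (g : MvPolynomial σ k) (hg : g.IsHomogeneous D)
    (hW : ∀ (Ω : Type u) [Field Ω] [Algebra k Ω] (x : σ → Ω),
      (∀ i, MvPolynomial.aeval x (h i) = 0) → MvPolynomial.aeval x g = 0 → x a = 0 → x = 0)
    {E : Type u} [Field E] [Algebra k E] [Algebra (RatFunc k) E] [IsScalarTower k (RatFunc k) E]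
    [FiniteDimensional (RatFunc k) E] (hE : ¬ ℓ ∣ Module.finrank (RatFunc k) E)
    (x : σ → E) (hx : ∀ i, MvPolynomial.aeval x (h i) = 0) (ha : x a = 1)
    (hb : x b = algebraMap (RatFunc k) E RatFunc.X) :
    ∃ (κ : Type u) (_ : Field κ) (_ : Algebra k κ), FiniteDimensional k κ ∧
      ¬ ℓ ∣ Module.finrank k κ ∧ ∃ y : σ → κ, y ≠ 0 ∧
        (∀ i, MvPolynomial.aeval y (h i) = 0) ∧ MvPolynomial.aeval y g = 0 := by
  let E' := IntermediateField.adjoin (RatFunc k) (Set.range x)
  let x' : σ → E' := fun j => ⟨x j, IntermediateField.subset_adjoin _ _ ⟨j, rfl⟩⟩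
  have htow : IsScalarTower k E' E := IsScalarTower.of_algebraMap_eq fun c => rfl
  have hmap : ∀ H : MvPolynomial σ k, algebraMap E' E (MvPolynomial.aeval x' H) =
      MvPolynomial.aeval x H := by
    intro H
    rw [← MvPolynomial.aeval_algebraMap_apply]
    rfl
  have hinj : Function.Injective (algebraMap E' E) := (algebraMap E' E).injective
  have hfin : ¬ ℓ ∣ Module.finrank (RatFunc k) E' := by
    intro h1
    apply hE
    rw [← Module.finrank_mul_finrank (RatFunc k) E' E]
    exact h1.mul_right _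
  refine curve_aux hℓ h hD hh a b hV g hg hW hfin x' ?_ ?_ ?_ ?_
  · intro i
    apply hinj
    rw [hmap, hx, map_zero]
  · apply hinj
    rw [map_one]
    exact ha
  · apply hinj
    exact hb
  · apply IntermediateField.lift_injective E'
    rw [IntermediateField.lift_adjoin, IntermediateField.lift_top]
    have h1 : Subtype.val '' Set.range x' = Set.range x := by
      rw [← Set.range_comp]
      rfl
    rw [h1]

end Pool.Agent.PSG
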