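import Mathlib

/-!
# PSG-PfEmp: the deformed forms `t x_i ^ D + f_i(x)` have no zeros at infinity
-/

namespace Pool.Agent.PSG

universe u

/-- homogeneity of the evaluation -/
private theorem emp_smul {K : Type u} [Field K] {Ω : Type u} [Field Ω] [Algebra K Ω] {σ : Type} {D : ℕ}
    {f : MvPolynomial σ K} (hf : f.IsHomogeneous D) (c : Ω) (z : σ → Ω) :
    MvPolynomial.aeval (fun i => c * z i) f = c ^ D * MvPolynomial.aeval z f := by
  rw [MvPolynomial.aeval_def, MvPolynomial.aeval_def, MvPolynomial.eval₂_eq, MvPolynomial.eval₂_eq,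
    Finset.mul_sum]
  refine Finset.sum_congr rfl fun d hd => ?_
  have h1 : ∏ i ∈ d.support, (c * z i) ^ d i = c ^ D * ∏ i ∈ d.support, z i ^ d i := by
    rw [Finset.prod_congr rfl fun i _ => mul_pow c (z i) (d i), Finset.prod_mul_distrib,
      Finset.prod_pow_eq_pow_sum]
    have h2 : ∑ i ∈ d.support, d i = D := by
      have h3 := hf (MvPolynomial.mem_support_iff.1 hd)
      rw [← h3, Finsupp.weight_apply, Finsupp.sum]
      exact Finset.sum_congr rfl fun i _ => by simp
    rw [h2]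
  rw [h1]
  ring

/-- evaluation in a subring which contains the constants -/
private theorem emp_mem {K : Type u} [Field K] {Ω : Type u} [Field Ω] [Algebra K Ω] {σ : Type}
    (f : MvPolynomial σ K) (B : Subring Ω) (hK : ∀ c : K, algebraMap K Ω c ∈ B) (z : σ → Ω) (hz : ∀ i, z i ∈ B) :
    MvPolynomial.aeval z f ∈ B := by
  rw [MvPolynomial.aeval_def, MvPolynomial.eval₂_eq]
  exact B.sum_mem fun d _ => B.mul_mem (hK _) (B.prod_mem fun i _ => B.pow_mem (hz i) _)

/-- a valuation subring over the constants in which `t⁻¹` is not a unit -/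
private theorem emp_val {K : Type u} [Field K] {Ω : Type u} [Field Ω] [Algebra K Ω]
    [Algebra (RatFunc K) Ω] [IsScalarTower K (RatFunc K) Ω] :
    ∃ B : ValuationSubring Ω, (∀ c : K, algebraMap K Ω c ∈ B) ∧
      (algebraMap (RatFunc K) Ω RatFunc.X)⁻¹ ∈ B.nonunits := by
  obtain ⟨t, ht⟩ : ∃ t, t = (algebraMap (RatFunc K) Ω RatFunc.X)⁻¹ := ⟨_, rfl⟩
  rw [← ht]
  obtain ⟨ψ, hψ⟩ : ∃ ψ : Polynomial K →ₐ[K] Ω, ψ = Polynomial.aeval t := ⟨_, rfl⟩
  have hinj : Function.Injective ψ := by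
    have h1 : Transcendental K t := by
      intro h
      have h2 : IsAlgebraic K (algebraMap (RatFunc K) Ω RatFunc.X) := by
        have h3 := h.inv
        rwa [ht, inv_inv] at h3
      have h3 : IsAlgebraic K (RatFunc.X : RatFunc K) :=
        (isAlgebraic_algebraMap_iff (algebraMap (RatFunc K) Ω).injective).1 h2
      exact RatFunc.transcendental_X h3
    rw [hψ]
    exact transcendental_iff_injective.1 h1
  have htA : t ∈ ψ.toRingHom.range := ⟨Polynomial.X, by
    show ψ Polynomial.X = t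
    rw [hψ, Polynomial.aeval_X]⟩
  have hI : Ideal.span {(⟨t, htA⟩ : ψ.toRingHom.range)} ≠ ⊤ := by
    intro h
    rw [Ideal.eq_top_iff_one, Ideal.mem_span_singleton'] at h
    obtain ⟨⟨a, p, hp⟩, ha⟩ := h
    have h1 : a * t = 1 := congrArg Subtype.val ha
    have h2 : ψ (p * Polynomial.X) = ψ 1 := by
      rw [map_mul, map_one, ← h1, ← hp]
      congr 1
      rw [hψ, Polynomial.aeval_X]
    have h3 := hinj h2
    have h4 := congrArg (Polynomial.eval 0) h3
    simp at h4
  obtain ⟨B, hB1, hB2⟩ := Ideal.image_subset_nonunits_valuationSubring _ hI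
  refine ⟨B, fun c => ?_, ?_⟩
  · have h1 : algebraMap K Ω c ∈ ψ.toRingHom.range := ⟨Polynomial.C c, by
      show ψ (Polynomial.C c) = algebraMap K Ω c
      rw [hψ, Polynomial.aeval_C]⟩
    exact hB1 h1
  · exact hB2 ⟨⟨t, htA⟩, Ideal.subset_span rfl, rfl⟩

theorem empty_infty {K : Type u} [Field K] {Ω : Type u} [Field Ω] [Algebra K Ω]
    [Algebra (RatFunc K) Ω] [IsScalarTower K (RatFunc K) Ω] {σ : Type} [Finite σ] {D : ℕ}
    (f : σ → MvPolynomial σ K) (hf : ∀ i, (f i).IsHomogeneous D) (x : σ → Ω)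
    (h : ∀ i, x i = 0 ∨
      algebraMap (RatFunc K) Ω RatFunc.X * x i ^ D + MvPolynomial.aeval x (f i) = 0) :
    x = 0 := by
  by_contra hx
  obtain ⟨j, hj⟩ : ∃ j, x j ≠ 0 := by
    by_contra hcon
    push Not at hcon
    exact hx (funext hcon)
  obtain ⟨B, hK, ht⟩ := emp_val (K := K) (Ω := Ω)
  have : Nonempty σ := ⟨j⟩
  obtain ⟨i, hi⟩ := Finite.exists_max fun i => B.valuation (x i)
  have hxi : x i ≠ 0 := by
    intro h0
    have h1 := hi j
    rw [h0, map_zero, le_zero_iff, Valuation.zero_iff] at h1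
    exact hj h1
  obtain ⟨z, hz⟩ : ∃ z : σ → Ω, z = fun j => x j / x i := ⟨_, rfl⟩
  have hzB : ∀ j, z j ∈ B.toSubring := by
    intro j
    show z j ∈ B
    rw [← B.valuation_le_one_iff, hz, map_div₀]
    exact div_le_one_of_le₀ (hi j) zero_le
  have hxz : x = fun j => x i * z j := by
    funext j
    rw [hz]
    exact (mul_div_cancel₀ (x j) hxi).symm
  obtain ⟨t, htd⟩ : ∃ t, t = algebraMap (RatFunc K) Ω RatFunc.X := ⟨_, rfl⟩
  rw [← htd] at ht
  have h1 := (h i).resolve_left hxi
  have h2 : MvPolynomial.aeval x (f i) = x i ^ D * MvPolynomial.aeval z (f i) := by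
    conv_lhs => rw [hxz]
    exact emp_smul (hf i) (x i) z
  rw [h2, ← htd] at h1
  have h3 : x i ^ D * (t + MvPolynomial.aeval z (f i)) = 0 := by
    linear_combination h1
  have h4 := (mul_eq_zero.1 h3).resolve_left (pow_ne_zero D hxi)
  have h5 : t ∈ B := by
    have h6 : t = - MvPolynomial.aeval z (f i) := eq_neg_of_add_eq_zero_left h4
    rw [h6]
    exact B.toSubring.neg_mem (emp_mem (f i) B.toSubring hK z hzB)
  have ht0 : t ≠ 0 := by
    rw [htd]
    exact (map_ne_zero _).2 RatFunc.X_ne_zero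
  rw [ValuationSubring.mem_nonunits_iff] at ht
  have h6 := (B.valuation_le_one_iff t).2 h5
  have h7 : B.valuation t * B.valuation t⁻¹ = 1 := by
    rw [← map_mul, mul_inv_cancel₀ ht0, map_one]
  have h8 : B.valuation t * B.valuation t⁻¹ < 1 := by
    calc B.valuation t * B.valuation t⁻¹ ≤ 1 * B.valuation t⁻¹ := mul_le_mul' h6 le_rfl
      _ = B.valuation t⁻¹ := one_mul _
      _ < 1 := ht
  exact absurd h7 h8.ne

end Pool.Agent.PSG
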