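import Mathlib

/-!
# PSG-PfRes: residue fields of degree prime to `ℓ`

PLAN.  Prove first, by strong induction on `finrank k M`, for all finite `k`-modules `M` that are `A`-modules
(`[Module A M] [Module k M] [IsScalarTower k A M]`): if `ℓ ∤ finrank k M` then there is a maximal ideal `I`
of `A` with `ℓ ∤ finrank k (A ⧸ I)`.
* `finrank k M ≠ 0` (as `ℓ ∣ 0`), so `M` is nontrivial; `M` is an Artinian `A`-module (it is a finite
  dimensional `k`-space: `isArtinian_of_tower k` / `IsArtinian` of finite over a field), so it has a simple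
  submodule `S` (`IsAtomic` of Artinian: `IsAtomic.exists_atom`, `isSimpleModule_iff_isAtom`).
* `S ≃ₗ[A] A ⧸ I` with `I` maximal (`isSimpleModule_iff_quot_maximal`), so `finrank k S = finrank k (A ⧸ I)`
  (`LinearEquiv.finrank_eq` after `restrictScalars k`).
* If `ℓ ∤ finrank k S` we are done.  Otherwise `finrank k M = finrank k S + finrank k (M ⧸ S)`
  (`Submodule.finrank_quotient_add_finrank` for `S.restrictScalars k`), so `ℓ ∤ finrank k (M ⧸ S)` and
  `finrank k (M ⧸ S) < finrank k M`: induction.
Apply to `M = A`.
-/

namespace Pool.Agent.PSG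

universe u

private theorem res_aux {ℓ : ℕ} {k : Type u} [Field k] {A : Type u} [CommRing A] [Algebra k A]
    [Module.Finite k A] : ∀ (d : ℕ) (M : Type u) [AddCommGroup M] [Module A M] [Module k M]
    [IsScalarTower k A M] [Module.Finite k M], Module.finrank k M = d → ¬ ℓ ∣ Module.finrank k M →
    ∃ I : Ideal A, I.IsMaximal ∧ ¬ ℓ ∣ Module.finrank k (A ⧸ I) := by
  intro d
  induction d using Nat.strong_induction_on with
  | _ d ih =>
    intro M _ _ _ _ _ hd hM
    have h0 : Module.finrank k M ≠ 0 := fun h => hM (h ▸ dvd_zero ℓ)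
    have hnt : Nontrivial M := Module.nontrivial_of_finrank_pos (R := k) (Nat.pos_of_ne_zero h0)
    have hart : IsArtinian A M := isArtinian_of_tower k inferInstance
    obtain ⟨S, hS⟩ := IsAtomic.exists_atom (Submodule A M)
    have hSs : IsSimpleModule A S := isSimpleModule_iff_isAtom.2 hS
    obtain ⟨I, hI, ⟨e⟩⟩ := isSimpleModule_iff_quot_maximal.1 hSs
    have hSI : Module.finrank k S = Module.finrank k (A ⧸ I) := (e.restrictScalars k).finrank_eq
    by_cases hdv : ℓ ∣ Module.finrank k S
    · have h1 : Module.finrank k (M ⧸ S) + Module.finrank k S = Module.finrank k M := by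
        have h2 := Submodule.finrank_quotient_add_finrank (S.restrictScalars k)
        rw [(Submodule.Quotient.restrictScalarsEquiv k S).finrank_eq] at h2
        exact h2
      have hSp : 0 < Module.finrank k S := by
        have : Nontrivial S := hSs.nontrivial
        have hfin : Module.Finite k S :=
          inferInstanceAs (Module.Finite k (S.restrictScalars k))
        exact Module.finrank_pos
      have hq : ¬ ℓ ∣ Module.finrank k (M ⧸ S) := fun h => hM (h1 ▸ dvd_add h hdv)
      have hfin : Module.Finite k (M ⧸ S) :=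
        Module.Finite.equiv (Submodule.Quotient.restrictScalarsEquiv k S)
      exact ih _ (by omega) (M ⧸ S) rfl hq
    · exact ⟨I, hI, hSI ▸ hdv⟩

/-- A finite dimensional commutative algebra of dimension prime to `ℓ` has a residue field of degree
prime to `ℓ`. -/
theorem exists_residue {ℓ : ℕ} {k : Type u} [Field k] {A : Type u} [CommRing A] [Algebra k A]
    [Module.Finite k A] (hA : ¬ ℓ ∣ Module.finrank k A) :
    ∃ I : Ideal A, I.IsMaximal ∧ ¬ ℓ ∣ Module.finrank k (A ⧸ I) := by
  exact res_aux _ A rfl hA

end Pool.Agent.PSG
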