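import Pool.Agent.PSG.Pf.SpS

/-! # PSG-PfSp: specialization, general case -/

namespace Pool.Agent.PSG

universe u

theorem spec_gen {ℓ : ℕ} (hℓ : ℓ.Prime) {K : Type u} [Field K] (hK : (ℓ : K) ≠ 0) {E : Type u}
    [Field E] [Algebra (RatFunc K) E] [FiniteDimensional (RatFunc K) E]
    (hE : ¬ ℓ ∣ Module.finrank (RatFunc K) E) {σ : Type} [Finite σ] (x : σ → E) (hx : x ≠ 0) :
    ∃ (κ : Type u) (_ : Field κ) (_ : Algebra K κ), FiniteDimensional K κ ∧
      ¬ ℓ ∣ Module.finrank K κ ∧ ∃ y : σ → κ, y ≠ 0 ∧
        ∀ (D : ℕ) (F : MvPolynomial σ (Polynomial K)), F.IsHomogeneous D →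
          MvPolynomial.eval₂ (ratMap K E) x F = 0 →
          MvPolynomial.aeval y (MvPolynomial.map Polynomial.constantCoeff F) = 0 := by
  classical
  obtain ⟨q, hq⟩ := ExpChar.exists K
  have hℓq : ∀ m : ℕ, ¬ ℓ ∣ q ^ m := by
    intro m h
    have h1 : ℓ ∣ q := hℓ.dvd_of_dvd_pow h
    cases hq with
    | zero => exact hℓ.one_lt.ne' (Nat.dvd_one.1 h1)
    | prime hp =>
      have h2 : ℓ = q := (Nat.prime_dvd_prime_iff_eq hℓ hp).1 h1
      apply hK
      rw [h2]
      exact CharP.cast_eq_zero K q
  have i1 : ExpChar (RatFunc K) q := expChar_of_injective_algebraMap (algebraMap K (RatFunc K)).injective q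
  have i2 : ExpChar E q := expChar_of_injective_algebraMap (algebraMap (RatFunc K) E).injective q
  have i3 : ExpChar (separableClosure (RatFunc K) E) q :=
    expChar_of_injective_algebraMap (algebraMap (RatFunc K) (separableClosure (RatFunc K) E)).injective q
  have i4 : ExpChar (Polynomial K) q := expChar_of_injective_ringHom (f := Polynomial.C) Polynomial.C_injective q
  have i5 : IsPurelyInseparable (separableClosure (RatFunc K) E) E :=
    separableClosure.isPurelyInseparable _ _
  have i6 : Algebra.IsSeparable (RatFunc K) (separableClosure (RatFunc K) E) :=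
    separableClosure.isSeparable _ _
  have hEs : ¬ ℓ ∣ Module.finrank (RatFunc K) (separableClosure (RatFunc K) E) := by
    intro h
    apply hE
    rw [← Module.finrank_mul_finrank (RatFunc K) (separableClosure (RatFunc K) E) E]
    exact h.mul_right _
  choose n₀ hn₀ using fun i => IsPurelyInseparable.pow_mem (separableClosure (RatFunc K) E) q (x i)
  obtain ⟨n, hn⟩ : ∃ n, ∀ i, n₀ i ≤ n := by
    have := Fintype.ofFinite σ
    exact ⟨Finset.univ.sup n₀, fun i => Finset.le_sup (Finset.mem_univ i)⟩
  have hx1 : ∀ i, ∃ z : separableClosure (RatFunc K) E, algebraMap (separableClosure (RatFunc K) E) E z =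
      x i ^ q ^ n := by
    intro i
    obtain ⟨z, hz⟩ := hn₀ i
    refine ⟨z ^ q ^ (n - n₀ i), ?_⟩
    rw [map_pow, hz, ← pow_mul, ← pow_add]
    congr 2
    have := hn i
    omega
  choose x' hx' using hx1
  have hx'0 : x' ≠ 0 := by
    intro h
    apply hx
    funext i
    have h1 := hx' i
    rw [h, Pi.zero_apply, map_zero] at h1
    exact eq_zero_of_pow_eq_zero h1.symm
  obtain ⟨κs, _, _, hfin, hdiv, y', hy', H⟩ := spec_sep hEs x' hx'0
  have j1 : ExpChar κs q := expChar_of_injective_algebraMap (algebraMap K κs).injective q
  have hqpos : 0 < q ^ n := expChar_pow_pos K q n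
  choose z hz using fun i => IsAlgClosed.exists_pow_nat_eq (algebraMap κs (AlgebraicClosure κs) (y' i)) hqpos
  have j2 : IsPurelyInseparable κs (IntermediateField.adjoin κs (Set.range z)) := by
    refine (IntermediateField.isPurelyInseparable_adjoin_iff_pow_mem κs _ q).2 ?_
    rintro _ ⟨i, rfl⟩
    exact ⟨n, y' i, (hz i).symm⟩
  have j3 : FiniteDimensional κs (IntermediateField.adjoin κs (Set.range z)) := by
    have : Finite (Set.range z) := Set.finite_range z
    exact IntermediateField.finiteDimensional_adjoin fun x _ => Algebra.IsIntegral.isIntegral x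
  have j4 : ExpChar (IntermediateField.adjoin κs (Set.range z)) q :=
    expChar_of_injective_algebraMap (algebraMap κs (IntermediateField.adjoin κs (Set.range z))).injective q
  obtain ⟨m, hm⟩ := IsPurelyInseparable.finrank_eq_pow κs (IntermediateField.adjoin κs (Set.range z)) q
  refine ⟨IntermediateField.adjoin κs (Set.range z), inferInstance, inferInstance,
    FiniteDimensional.trans K κs _, ?_, fun i => ⟨z i, IntermediateField.subset_adjoin _ _ ⟨i, rfl⟩⟩, ?_, ?_⟩
  · rw [← Module.finrank_mul_finrank K κs (IntermediateField.adjoin κs (Set.range z)), hm]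
    intro h
    rcases hℓ.dvd_mul.1 h with h1 | h1
    · exact hdiv h1
    · exact hℓq m h1
  · intro h
    apply hy'
    funext i
    have h1 : z i = 0 := congrArg Subtype.val (congrFun h i)
    have h2 := hz i
    rw [h1, zero_pow hqpos.ne'] at h2
    exact (map_eq_zero _).1 h2.symm
  · intro D F hF hF0
    have h1 : MvPolynomial.eval₂ (ratMap K (separableClosure (RatFunc K) E)) x'
        (MvPolynomial.map (iterateFrobenius (Polynomial K) q n) F) = 0 := by
      apply (algebraMap (separableClosure (RatFunc K) E) E).injective
      rw [map_zero, MvPolynomial.eval₂_comp_left, MvPolynomial.eval₂_map]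
      have e1 : ((algebraMap (separableClosure (RatFunc K) E) E).comp
          (ratMap K (separableClosure (RatFunc K) E))).comp (iterateFrobenius (Polynomial K) q n) =
          (iterateFrobenius E q n).comp (ratMap K E) := by
        refine RingHom.ext fun a => ?_
        simp only [RingHom.comp_apply, iterateFrobenius_def, map_pow]
        rfl
      have e2 : (algebraMap (separableClosure (RatFunc K) E) E) ∘ x' = (iterateFrobenius E q n) ∘ x := by
        funext i
        rw [Function.comp_apply, hx' i, Function.comp_apply, iterateFrobenius_def]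
      rw [e1, e2, ← MvPolynomial.eval₂_comp_left, hF0, map_zero]
    have h2 := H D _ (hF.map _) h1
    have h3 : MvPolynomial.map Polynomial.constantCoeff
        (MvPolynomial.map (iterateFrobenius (Polynomial K) q n) F) =
        MvPolynomial.map (iterateFrobenius K q n) (MvPolynomial.map Polynomial.constantCoeff F) := by
      rw [MvPolynomial.map_map, MvPolynomial.map_map]
      congr 1
      congr 1
      refine RingHom.ext fun a => ?_
      simp only [RingHom.comp_apply, iterateFrobenius_def, map_pow]
    rw [h3] at h2
    apply (iterateFrobenius (IntermediateField.adjoin κs (Set.range z)) q n).injective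
    rw [map_zero, MvPolynomial.aeval_def, MvPolynomial.eval₂_comp_left]
    have e3 : (iterateFrobenius (IntermediateField.adjoin κs (Set.range z)) q n).comp
        (algebraMap K (IntermediateField.adjoin κs (Set.range z))) =
        (algebraMap κs (IntermediateField.adjoin κs (Set.range z))).comp
          ((algebraMap K κs).comp (iterateFrobenius K q n)) := by
      refine RingHom.ext fun a => ?_
      simp only [RingHom.comp_apply, iterateFrobenius_def, map_pow]
      rw [← IsScalarTower.algebraMap_apply]
    have e4 : (iterateFrobenius (IntermediateField.adjoin κs (Set.range z)) q n) ∘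
        (fun i => (⟨z i, IntermediateField.subset_adjoin _ _ ⟨i, rfl⟩⟩ :
          IntermediateField.adjoin κs (Set.range z))) =
        (algebraMap κs (IntermediateField.adjoin κs (Set.range z))) ∘ y' := by
      funext i
      rw [Function.comp_apply, iterateFrobenius_def]
      apply Subtype.ext
      show z i ^ q ^ n = algebraMap κs (AlgebraicClosure κs) (y' i)
      exact hz i
    rw [e3, e4, ← MvPolynomial.eval₂_comp_left, ← MvPolynomial.eval₂_map]
    rw [MvPolynomial.aeval_def] at h2
    rw [h2, map_zero]

end Pool.Agent.PSG
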