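import Pool.Agent.PSG.Pf.Res

/-!
# PSG-PfSpS: specialization `t → 0`, separable case

`K(t) = RatFunc K`, `E / K(t)` finite separable of degree prime to `ℓ`, `x : σ → E` not zero.  There are a finite
extension `κ / K` of degree prime to `ℓ` and a nonzero `y : σ → κ` such that every homogeneous equation `F(x) = 0`
with coefficients in `K[t]` gives `F₀(y) = 0`, `F₀` the reduction of `F` at `t = 0`.

PLAN.  `O := integralClosure K[X] E` (`Polynomial K` acts on `E` through `RatFunc K`: put
`letI := (ratMap K E).toAlgebra`): it is a Dedekind domain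
(`integralClosure.isDedekindDomain K[X] (RatFunc K) E`), finite over `K[X]`
(`IsIntegralClosure.finite` / `IsIntegralClosure.isNoetherian`, separable), free of rank `m = [E : K(t)]`
(`IsIntegralClosure.rank` or by localization).  With a basis `b`:
`finrank K (O ⧸ span {X}) = natDegree (norm K[X] (X : O)) = natDegree (X ^ m) = m`
(`finrank_quotient_span_eq_natDegree_norm b`, `Algebra.norm_algebraMap_of_basis`).  So `exists_residue` for
`A = O ⧸ span {X}` gives a maximal ideal of `A`; let `P` be its preimage in `O`, a maximal ideal containing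
`X`, and `κ := O ⧸ P` (isomorphic to the quotient of `A`, `DoubleQuot.quotQuotEquivQuotOfLE` or the like).
`R := Localization.AtPrime P` (or the valuation subring of `E` attached to it) is a discrete valuation ring with
fraction field `E`: `IsLocalization.AtPrime.isDiscreteValuationRing_of_dedekind_domain`; `P ≠ ⊥` as it
contains `X ≠ 0`.  Its residue field is `O ⧸ P` (`IsLocalization.AtPrime.equivQuotMaximalIdeal` or so).  As `R`
is a valuation ring with fraction field `E` and `σ` is finite, there is `i₀` with `x i₀ ≠ 0` such that all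
`x i / x i₀` come from `R`; `y i :=` residue of `x i / x i₀`, so `y i₀ = 1`.  If `F(x) = 0`, `F` homogeneous of
degree `D`, then `F(x / x i₀) = 0` (homogeneity), an equation in `R`; reduce it: the coefficients in `K[t]`
go to their value at `t = 0` as `t = X ∈ P`.
(Any other choice of a discrete valuation ring, e.g. via `IsDedekindDomain.HeightOneSpectrum`, is fine, also
`κ :=` the residue field of `R`.)
-/

namespace Pool.Agent.PSG

universe u

/-- The map `K[t] → E`, for an extension `E` of `K(t)`. -/
noncomputable def ratMap (K : Type u) [Field K] (E : Type u) [Field E] [Algebra (RatFunc K) E] :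
    Polynomial K →+* E :=
  (algebraMap (RatFunc K) E).comp (algebraMap (Polynomial K) (RatFunc K))

open Polynomial in
private theorem sps_clear {O E : Type u} [CommRing O] [IsDomain O] [IsDedekindDomain O] [Field E]
    [Algebra O E] [IsFractionRing O E] (P : Ideal O) (hP : P ≠ ⊤) {σ : Type} [Finite σ]
    (x : σ → E) (hx : x ≠ 0) :
    ∃ (μ : E) (c : σ → O), (∀ i, x i = μ * algebraMap O E (c i)) ∧ μ ≠ 0 ∧ ∃ i, c i ∉ P := by
  classical
  have := Fintype.ofFinite σ
  set J : FractionalIdeal (nonZeroDivisors O) E :=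
    FractionalIdeal.spanFinset O Finset.univ x with hJ
  have hJ0 : J ≠ 0 := by
    rw [hJ, FractionalIdeal.spanFinset_ne_zero]
    by_contra hcon
    push Not at hcon
    exact hx (funext fun i => hcon i (Finset.mem_univ i))
  have hmul : J * J⁻¹ = 1 := mul_inv_cancel₀ hJ0
  have hmem : ∀ i, x i ∈ J := fun i => by
    show x i ∈ Submodule.span O (x '' ((Finset.univ : Finset σ) : Set σ))
    exact Submodule.subset_span ⟨i, by simp, rfl⟩
  have hint : ∀ t ∈ J⁻¹, ∀ i, ∃ c : O, algebraMap O E c = x i * t := by
    intro t ht i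
    have h1 : x i * t ∈ J * J⁻¹ := FractionalIdeal.mul_mem_mul (hmem i) ht
    rw [hmul, FractionalIdeal.mem_one_iff] at h1
    exact h1
  obtain ⟨t, ht, i0, hi0⟩ : ∃ t ∈ J⁻¹, ∃ i, ∀ c ∈ P, algebraMap O E c ≠ x i * t := by
    by_contra hcon
    push Not at hcon
    have h1 : J * J⁻¹ ≤ (P : FractionalIdeal (nonZeroDivisors O) E) := by
      rw [FractionalIdeal.mul_le]
      intro a ha b hb
      have ha' : a ∈ Submodule.span O (x '' ((Finset.univ : Finset σ) : Set σ)) := ha
      induction ha' using Submodule.span_induction with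
      | mem y hy =>
        obtain ⟨i, _, rfl⟩ := hy
        obtain ⟨c, hc, hc2⟩ := hcon b hb i
        exact (FractionalIdeal.mem_coeIdeal _).2 ⟨c, hc, hc2⟩
      | zero =>
        rw [zero_mul]
        exact (FractionalIdeal.mem_coeIdeal _).2 ⟨0, zero_mem P, map_zero _⟩
      | add y z hy hz ihy ihz =>
        obtain ⟨p, hp, hp2⟩ := (FractionalIdeal.mem_coeIdeal _).1 (ihy hy)
        obtain ⟨q, hq, hq2⟩ := (FractionalIdeal.mem_coeIdeal _).1 (ihz hz)
        rw [add_mul]
        exact (FractionalIdeal.mem_coeIdeal _).2 ⟨p + q, add_mem hp hq, by rw [map_add, hp2, hq2]⟩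
      | smul r y hy ihy =>
        obtain ⟨p, hp, hp2⟩ := (FractionalIdeal.mem_coeIdeal _).1 (ihy hy)
        rw [smul_mul_assoc]
        exact (FractionalIdeal.mem_coeIdeal _).2 ⟨r * p, P.mul_mem_left r hp, by
          rw [map_mul, hp2, Algebra.smul_def]⟩
    rw [hmul] at h1
    have h2 := h1 (FractionalIdeal.one_mem_one (nonZeroDivisors O) (P := E))
    obtain ⟨c, hc, hc2⟩ := (FractionalIdeal.mem_coeIdeal _).1 h2
    have h3 : c = 1 := by
      apply IsFractionRing.injective O E
      rw [hc2, map_one]
    rw [h3] at hc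
    exact hP ((Ideal.eq_top_iff_one P).2 hc)
  choose c hc using hint t ht
  have ht0 : t ≠ 0 := by
    rintro rfl
    exact hi0 0 (zero_mem P) (by rw [map_zero, mul_zero])
  refine ⟨t⁻¹, c, fun i => ?_, inv_ne_zero ht0, i0, fun h => hi0 (c i0) h (hc i0)⟩
  rw [hc i]
  field_simp

private theorem sps_hom {R E : Type u} [CommRing R] [Field E] (f : R →+* E) {σ : Type}
    {D : ℕ} {F : MvPolynomial σ R} (hF : F.IsHomogeneous D) (μ : E) (g : σ → E) :
    MvPolynomial.eval₂ f (fun i => μ * g i) F = μ ^ D * MvPolynomial.eval₂ f g F := by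
  classical
  rw [MvPolynomial.eval₂_eq, MvPolynomial.eval₂_eq, Finset.mul_sum]
  refine Finset.sum_congr rfl fun d hd => ?_
  have h1 : ∑ i ∈ d.support, d i = D := by
    have h2 := hF (MvPolynomial.mem_support_iff.1 hd)
    rw [← h2, Finsupp.weight_apply, Finsupp.sum]
    refine Finset.sum_congr rfl fun i _ => ?_
    simp
  have h3 : ∏ i ∈ d.support, (μ * g i) ^ d i = μ ^ D * ∏ i ∈ d.support, g i ^ d i := by
    rw [← h1, ← Finset.prod_pow_eq_pow_sum, ← Finset.prod_mul_distrib]
    exact Finset.prod_congr rfl fun i _ => mul_pow _ _ _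
  rw [h3]
  ring

open Polynomial in
private theorem sps_core {ℓ : ℕ} {K : Type u} [Field K] {E : Type u} [Field E] {O : Type u}
    [CommRing O] [IsDomain O] [IsDedekindDomain O] [Algebra K[X] O] [Algebra O E]
    [IsFractionRing O E] [Module.Finite K[X] O] [Module.Free K[X] O] [Algebra K O]
    [IsScalarTower K K[X] O] (hm : ¬ ℓ ∣ Module.finrank K[X] O) {σ : Type} [Finite σ]
    (x : σ → E) (hx : x ≠ 0) :
    ∃ (κ : Type u) (_ : Field κ) (_ : Algebra K κ), FiniteDimensional K κ ∧
      ¬ ℓ ∣ Module.finrank K κ ∧ ∃ y : σ → κ, y ≠ 0 ∧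
        ∀ (D : ℕ) (F : MvPolynomial σ K[X]), F.IsHomogeneous D →
          MvPolynomial.eval₂ ((algebraMap O E).comp (algebraMap K[X] O)) x F = 0 →
          MvPolynomial.aeval y (MvPolynomial.map Polynomial.constantCoeff F) = 0 := by
  classical
  have hm0 : Module.finrank K[X] O ≠ 0 := fun h => hm (h ▸ dvd_zero ℓ)
  have hX0 : algebraMap K[X] O X ≠ 0 := by
    intro h
    have h1 : Algebra.norm K[X] (algebraMap K[X] O X) = X ^ Module.finrank K[X] O := by
      rw [Algebra.norm_algebraMap_of_basis (Module.Free.chooseBasis K[X] O),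
        Module.finrank_eq_card_chooseBasisIndex]
    rw [h, Algebra.norm_zero] at h1
    exact pow_ne_zero _ X_ne_zero h1.symm
  have hfr : Module.finrank K (O ⧸ Ideal.span ({algebraMap K[X] O X} : Set O)) =
      Module.finrank K[X] O := by
    rw [finrank_quotient_span_eq_natDegree_norm (Module.Free.chooseBasis K[X] O) hX0,
      Algebra.norm_algebraMap_of_basis (Module.Free.chooseBasis K[X] O), natDegree_X_pow,
      Module.finrank_eq_card_chooseBasisIndex]
  have hfin : Module.Finite K (O ⧸ Ideal.span ({algebraMap K[X] O X} : Set O)) := by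
    apply Module.finite_of_finrank_pos
    rw [hfr]
    exact Nat.pos_of_ne_zero hm0
  obtain ⟨I, hI, hIl⟩ := exists_residue (ℓ := ℓ) (k := K)
    (A := O ⧸ Ideal.span ({algebraMap K[X] O X} : Set O)) (by rw [hfr]; exact hm)
  set π : O →+* ((O ⧸ Ideal.span ({algebraMap K[X] O X} : Set O)) ⧸ I) :=
    (Ideal.Quotient.mk I).comp (Ideal.Quotient.mk _) with hπ
  letI : Field ((O ⧸ Ideal.span ({algebraMap K[X] O X} : Set O)) ⧸ I) := Ideal.Quotient.field I
  have hker : RingHom.ker π ≠ ⊤ := RingHom.ker_ne_top π
  obtain ⟨μ, c, hc, hμ, i0, hi0⟩ := sps_clear (RingHom.ker π) hker x hx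
  refine ⟨(O ⧸ Ideal.span ({algebraMap K[X] O X} : Set O)) ⧸ I, inferInstance, inferInstance,
    inferInstance, hIl, fun i => π (c i), ?_, ?_⟩
  · intro h
    exact hi0 ((RingHom.mem_ker).2 (congrFun h i0))
  · intro D F hF h0
    have hx' : x = fun i => μ * algebraMap O E (c i) := funext hc
    rw [hx', sps_hom _ hF] at h0
    have h1 : MvPolynomial.eval₂ ((algebraMap O E).comp (algebraMap K[X] O))
        (fun i => algebraMap O E (c i)) F = 0 := by
      rcases mul_eq_zero.1 h0 with h | h
      · exact absurd h (pow_ne_zero _ hμ)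
      · exact h
    have h2 : algebraMap O E (MvPolynomial.eval₂ (algebraMap K[X] O) c F) = 0 := by
      rw [MvPolynomial.eval₂_comp_left (algebraMap O E)]
      exact h1
    have h3 : MvPolynomial.eval₂ (algebraMap K[X] O) c F = 0 := by
      apply IsFractionRing.injective O E
      rw [h2, map_zero]
    have h4 : π (MvPolynomial.eval₂ (algebraMap K[X] O) c F) = 0 := by rw [h3, map_zero]
    rw [MvPolynomial.eval₂_comp_left π] at h4
    have h5 : π.comp (algebraMap K[X] O) =
        (algebraMap K ((O ⧸ Ideal.span ({algebraMap K[X] O X} : Set O)) ⧸ I)).comp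
          Polynomial.constantCoeff := by
      apply Polynomial.ringHom_ext
      · intro a
        simp only [hπ, RingHom.comp_apply, Polynomial.constantCoeff_apply,
          Polynomial.coeff_C_zero]
        have h6 : algebraMap K[X] O (C a) = algebraMap K O a := by
          rw [IsScalarTower.algebraMap_apply K K[X] O]
          rfl
        rw [h6]
        rfl
      · simp only [hπ, RingHom.comp_apply, Polynomial.constantCoeff_apply,
          Polynomial.coeff_X_zero, map_zero]
        have h6 : Ideal.Quotient.mk (Ideal.span ({algebraMap K[X] O X} : Set O))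
            (algebraMap K[X] O X) = 0 :=
          Ideal.Quotient.eq_zero_iff_mem.2 (Ideal.subset_span rfl)
        rw [h6, map_zero]
    rw [h5] at h4
    rw [MvPolynomial.aeval_def, MvPolynomial.eval₂_map]
    exact h4

theorem spec_sep {ℓ : ℕ} {K : Type u} [Field K] {E : Type u} [Field E]
    [Algebra (RatFunc K) E]
    [FiniteDimensional (RatFunc K) E] [Algebra.IsSeparable (RatFunc K) E]
    (hE : ¬ ℓ ∣ Module.finrank (RatFunc K) E) {σ : Type} [Finite σ] (x : σ → E) (hx : x ≠ 0) :
    ∃ (κ : Type u) (_ : Field κ) (_ : Algebra K κ), FiniteDimensional K κ ∧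
      ¬ ℓ ∣ Module.finrank K κ ∧ ∃ y : σ → κ, y ≠ 0 ∧
        ∀ (D : ℕ) (F : MvPolynomial σ (Polynomial K)), F.IsHomogeneous D →
          MvPolynomial.eval₂ (ratMap K E) x F = 0 →
          MvPolynomial.aeval y (MvPolynomial.map Polynomial.constantCoeff F) = 0 := by
  letI : Algebra (Polynomial K) E := (ratMap K E).toAlgebra
  haveI : IsScalarTower (Polynomial K) (RatFunc K) E := IsScalarTower.of_algebraMap_eq fun _ => rfl
  letI : Algebra K E := ((algebraMap (Polynomial K) E).comp Polynomial.C).toAlgebra
  haveI : IsScalarTower K (Polynomial K) E := IsScalarTower.of_algebraMap_eq fun _ => rfl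
  haveI : Module.IsTorsionFree (Polynomial K) E := .trans_faithfulSMul (Polynomial K) (RatFunc K) E
  haveI : IsDedekindDomain (integralClosure (Polynomial K) E) :=
    integralClosure.isDedekindDomain (Polynomial K) (RatFunc K) E
  haveI : IsFractionRing (integralClosure (Polynomial K) E) E :=
    integralClosure.isFractionRing_of_finite_extension (RatFunc K) E
  haveI : Module.Finite (Polynomial K) (integralClosure (Polynomial K) E) :=
    IsIntegralClosure.finite (Polynomial K) (RatFunc K) E _
  haveI : Module.Free (Polynomial K) (integralClosure (Polynomial K) E) :=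
    IsIntegralClosure.module_free (Polynomial K) (RatFunc K) E _
  have hrk : Module.finrank (Polynomial K) (integralClosure (Polynomial K) E) =
      Module.finrank (RatFunc K) E := IsIntegralClosure.rank (Polynomial K) (RatFunc K) E _
  obtain ⟨κ, i1, i2, h1, h2, y, hy, h3⟩ := sps_core (ℓ := ℓ) (K := K)
    (O := integralClosure (Polynomial K) E) (by rw [hrk]; exact hE) x hx
  exact ⟨κ, i1, i2, h1, h2, y, hy, fun D F hF h0 => h3 D F hF h0⟩

end Pool.Agent.PSG
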