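import Pool.Agent.PSG.Pf.Curve
import Pool.Agent.PSG.Pf.Emp
import Pool.Agent.PSG.Pf.Sp

/-!
# PSG-PfStep: Pfister's theorem, induction step

`Pf ℓ D n`: any `n` forms of degree `D` in `n + 1` variables over a field `K` in which `ℓ ≠ 0` have a nonzero common
zero over a finite extension of `K` of degree prime to `ℓ`.

PLAN (`step`).  `K` and `f : Fin (n + 1) → MvPolynomial (Fin (n + 2)) K` are given.  `k := RatFunc K = K(t)`
(`ℓ ≠ 0` in `k`), `σ := Fin (n + 2)`, `F j : MvPolynomial σ (Polynomial K) := C X * X (j.succ) ^ D + map C (f j)`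
(`C X`: the constant `t`), homogeneous of degree `D`, and
`h j : MvPolynomial σ k := map (algebraMap (Polynomial K) k) (F j)`.
1. Emptiness at infinity: for a field `Ω ⊇ k` and `x : σ → Ω`: if `x 0 = 0` and for every `j : Fin (n + 1)`
   either `x j.succ = 0` or `h j (x) = 0`, then `x = 0`: this is `empty_infty` for
   `Fin.cons 0 f : Fin (n + 2) → _` (`Algebra K Ω` by composition, `letI`).
   So `hV` holds for `h (castSucc i)`, `i : Fin n`, with `a = 0`, `b = Fin.last (n + 1)`, and `hW` holds for `g := h (Fin.last n)`.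
2. Over `k(u) := RatFunc k` (in which `ℓ ≠ 0`) apply `Pf ℓ D n` to the forms
   `h (castSucc i) (X 0, .., X n, u X 0)`, i.e. `bind₁`/`aeval` of
   `s : σ → MvPolynomial (Fin (n + 1)) (RatFunc k) := Fin.snoc (fun i => X i) (C u * X 0)` on
   `map (algebraMap k (RatFunc k)) (h ..)`: homogeneous of degree `D` (`IsHomogeneous.aeval`/`.bind₁`/by sums of monomials).
   It gives `E / k(u)` finite of degree prime to `ℓ` and `x' ≠ 0`; put `x := Fin.snoc x' (u x' 0)`, a nonzero common
   zero of the `h (castSucc i)`.  If `x' 0 = 0` then `x 0 = 0` and `x (last) = 0`, so `x = 0` by 1 (`Ω = E`).  So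
   `x' 0 ≠ 0`; divide `x` by `x' 0` (homogeneity): `x 0 = 1`, `x last = u`.
3. `curve`: a finite extension `κ / k` of degree prime to `ℓ` and `y : σ → κ` not zero with `h j (y) = 0` for all
   `j` (`Fin.lastCases`).
4. `spec_gen` (`E := κ`, forms `F j`; `eval₂ (ratMap K κ) y (F j) = aeval y (h j) = 0`): a finite extension
   `κ' / K` of degree prime to `ℓ` and `y' ≠ 0` with `aeval y' (map constantCoeff (F j)) = 0`, and
   `map constantCoeff (F j) = f j` (`constantCoeff X = 0`, `constantCoeff (C c) = c`).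
-/

namespace Pool.Agent.PSG

universe u

/-- `n` forms of degree `D` in `n + 1` variables have a nonzero common zero over a finite extension of
degree prime to `ℓ`, over all fields in which `ℓ ≠ 0`. -/
def Pf (ℓ D n : ℕ) : Prop :=
  ∀ (K : Type u) [Field K], (ℓ : K) ≠ 0 → ∀ f : Fin n → MvPolynomial (Fin (n + 1)) K,
    (∀ i, (f i).IsHomogeneous D) →
    ∃ (E : Type u) (_ : Field E) (_ : Algebra K E), FiniteDimensional K E ∧
      ¬ ℓ ∣ Module.finrank K E ∧
      ∃ x : Fin (n + 1) → E, x ≠ 0 ∧ ∀ i, MvPolynomial.aeval x (f i) = 0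

/-- the deformed forms -/
private noncomputable def stF {K : Type u} [Field K] {n : ℕ} (D : ℕ)
    (f : Fin (n + 1) → MvPolynomial (Fin (n + 2)) K) (j : Fin (n + 1)) :
    MvPolynomial (Fin (n + 2)) (Polynomial K) :=
  MvPolynomial.C Polynomial.X * MvPolynomial.X j.succ ^ D +
    MvPolynomial.map Polynomial.C (f j)

/-- the deformed forms over the field of rational functions -/
private noncomputable def stH {K : Type u} [Field K] {n : ℕ} (D : ℕ)
    (f : Fin (n + 1) → MvPolynomial (Fin (n + 2)) K) (j : Fin (n + 1)) :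
    MvPolynomial (Fin (n + 2)) (RatFunc K) :=
  MvPolynomial.map (algebraMap (Polynomial K) (RatFunc K)) (stF D f j)

private theorem stF_hom {K : Type u} [Field K] {n D : ℕ}
    {f : Fin (n + 1) → MvPolynomial (Fin (n + 2)) K} (hf : ∀ i, (f i).IsHomogeneous D)
    (j : Fin (n + 1)) : (stF D f j).IsHomogeneous D :=
  (MvPolynomial.isHomogeneous_C_mul_X_pow _ _ _).add ((hf j).map _)

private theorem stH_hom {K : Type u} [Field K] {n D : ℕ}
    {f : Fin (n + 1) → MvPolynomial (Fin (n + 2)) K} (hf : ∀ i, (f i).IsHomogeneous D)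
    (j : Fin (n + 1)) : (stH D f j).IsHomogeneous D := (stF_hom hf j).map _

private theorem stF_const {K : Type u} [Field K] {n D : ℕ}
    (f : Fin (n + 1) → MvPolynomial (Fin (n + 2)) K) (j : Fin (n + 1)) :
    MvPolynomial.map Polynomial.constantCoeff (stF D f j) = f j := by
  have h1 : (Polynomial.constantCoeff.comp Polynomial.C : K →+* K) = RingHom.id K := by
    ext c
    simp
  rw [stF, map_add, map_mul, MvPolynomial.map_C, MvPolynomial.map_map, h1, MvPolynomial.map_id,
    Polynomial.constantCoeff_apply, Polynomial.coeff_X_zero, map_zero, zero_mul, zero_add]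

private theorem stH_eval {K : Type u} [Field K] {n D : ℕ}
    (f : Fin (n + 1) → MvPolynomial (Fin (n + 2)) K) (j : Fin (n + 1)) {Ω : Type u} [Field Ω]
    [Algebra (RatFunc K) Ω] (x : Fin (n + 2) → Ω) :
    MvPolynomial.aeval x (stH D f j) = MvPolynomial.eval₂ (ratMap K Ω) x (stF D f j) := by
  rw [stH, MvPolynomial.aeval_def, MvPolynomial.eval₂_map]
  rfl

private theorem stH_aeval {K : Type u} [Field K] {n D : ℕ}
    (f : Fin (n + 1) → MvPolynomial (Fin (n + 2)) K) (j : Fin (n + 1)) {Ω : Type u} [Field Ω]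
    [Algebra K Ω] [Algebra (RatFunc K) Ω] [IsScalarTower K (RatFunc K) Ω] (x : Fin (n + 2) → Ω) :
    MvPolynomial.aeval x (stH D f j) =
      algebraMap (RatFunc K) Ω RatFunc.X * x j.succ ^ D + MvPolynomial.aeval x (f j) := by
  have h1 : (ratMap K Ω) Polynomial.X = algebraMap (RatFunc K) Ω RatFunc.X := by
    rw [ratMap, RingHom.comp_apply, RatFunc.algebraMap_X]
  have h2 : (ratMap K Ω).comp Polynomial.C = algebraMap K Ω := by
    ext c
    rw [ratMap, RingHom.comp_apply, RingHom.comp_apply, RatFunc.algebraMap_C,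
      IsScalarTower.algebraMap_apply K (RatFunc K) Ω]
    rfl
  rw [stH_eval, stF, MvPolynomial.eval₂_add, MvPolynomial.eval₂_mul, MvPolynomial.eval₂_C,
    MvPolynomial.eval₂_pow, MvPolynomial.eval₂_X, MvPolynomial.eval₂_map, h1, h2,
    MvPolynomial.aeval_def]

private theorem step_emp {K : Type u} [Field K] {n D : ℕ}
    {f : Fin (n + 1) → MvPolynomial (Fin (n + 2)) K} (hf : ∀ i, (f i).IsHomogeneous D)
    {Ω : Type u} [Field Ω] [Algebra (RatFunc K) Ω] (x : Fin (n + 2) → Ω) (h0 : x 0 = 0)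
    (h : ∀ j : Fin (n + 1), x j.succ = 0 ∨ MvPolynomial.aeval x (stH D f j) = 0) : x = 0 := by
  let _ : Algebra K Ω := ((algebraMap (RatFunc K) Ω).comp (algebraMap K (RatFunc K))).toAlgebra
  have _ : IsScalarTower K (RatFunc K) Ω := IsScalarTower.of_algebraMap_eq (fun _ => rfl)
  refine empty_infty (K := K) (Fin.cons 0 f : Fin (n + 2) → MvPolynomial (Fin (n + 2)) K)
    (D := D) (fun i => ?_) x (fun i => ?_)
  · refine Fin.cases ?_ (fun j => ?_) i
    · exact MvPolynomial.isHomogeneous_zero _ _ _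
    · exact hf j
  · refine Fin.cases ?_ (fun j => ?_) i
    · exact Or.inl h0
    · rcases h j with h1 | h1
      · exact Or.inl h1
      · right
        rw [stH_aeval] at h1
        exact h1

private theorem step_smul {K : Type u} [Field K] {Ω : Type u} [Field Ω] [Algebra K Ω] {σ : Type}
    {D : ℕ} {f : MvPolynomial σ K} (hf : f.IsHomogeneous D) (c : Ω) (z : σ → Ω) :
    MvPolynomial.aeval (fun i => c * z i) f = c ^ D * MvPolynomial.aeval z f := by
  rw [MvPolynomial.aeval_def, MvPolynomial.aeval_def, MvPolynomial.eval₂_eq, MvPolynomial.eval₂_eq,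
    Finset.mul_sum]
  refine Finset.sum_congr rfl fun d hd => ?_
  have h1 : ∏ i ∈ d.support, (c * z i) ^ d i = c ^ D * ∏ i ∈ d.support, z i ^ d i := by
    rw [Finset.prod_congr rfl fun i _ => mul_pow c (z i) (d i), Finset.prod_mul_distrib,
      Finset.prod_pow_eq_pow_sum]
    have h2 : ∑ i ∈ d.support, d i = D := by
      have h3 := hf (MvPolynomial.mem_support_iff.1 hd)
      rw [← h3, Finsupp.weight_apply, Finsupp.sum]
      exact Finset.sum_congr rfl fun i _ => by simp
    rw [h2]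
  rw [h1]
  ring

/-- the family over an extension of `k(u)` -/
private theorem step_up {ℓ : ℕ} {D n : ℕ} (h : Pf.{u} ℓ D n) {k : Type u} [Field k]
    (hk : (ℓ : k) ≠ 0) (H : Fin n → MvPolynomial (Fin (n + 2)) k)
    (hH : ∀ i, (H i).IsHomogeneous D)
    (hV : ∀ (Ω : Type u) [Field Ω] [Algebra k Ω] (x : Fin (n + 2) → Ω),
      (∀ i, MvPolynomial.aeval x (H i) = 0) → x 0 = 0 → x (Fin.last (n + 1)) = 0 → x = 0) :
    ∃ (E : Type u) (_ : Field E) (_ : Algebra k E) (_ : Algebra (RatFunc k) E)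
      (_ : IsScalarTower k (RatFunc k) E), FiniteDimensional (RatFunc k) E ∧
      ¬ ℓ ∣ Module.finrank (RatFunc k) E ∧ ∃ x : Fin (n + 2) → E,
        (∀ i, MvPolynomial.aeval x (H i) = 0) ∧ x 0 = 1 ∧
        x (Fin.last (n + 1)) = algebraMap (RatFunc k) E RatFunc.X := by
  obtain ⟨s, hs⟩ : ∃ s : Fin (n + 2) → MvPolynomial (Fin (n + 1)) (RatFunc k),
      s = Fin.snoc (fun i => MvPolynomial.X i)
        (MvPolynomial.C RatFunc.X * MvPolynomial.X 0) := ⟨_, rfl⟩
  have hs1 : ∀ i : Fin (n + 1), s i.castSucc = MvPolynomial.X i := by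
    intro i
    rw [hs]
    exact Fin.snoc_castSucc (α := fun _ => MvPolynomial (Fin (n + 1)) (RatFunc k)) _ _ i
  have hs2 : s (Fin.last (n + 1)) = MvPolynomial.C RatFunc.X * MvPolynomial.X 0 := by
    rw [hs]
    exact Fin.snoc_last (α := fun _ => MvPolynomial (Fin (n + 1)) (RatFunc k)) _ _
  have hsh : ∀ i, (s i).IsHomogeneous 1 := by
    intro i
    refine Fin.lastCases ?_ (fun j => ?_) i
    · rw [hs2]
      exact MvPolynomial.isHomogeneous_C_mul_X _ _
    · rw [hs1]
      exact MvPolynomial.isHomogeneous_X _ _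
  have hk2 : (ℓ : RatFunc k) ≠ 0 := by
    intro h1
    apply hk
    apply (algebraMap k (RatFunc k)).injective
    rw [map_natCast, map_zero, h1]
  obtain ⟨E, iE, iA, hfin, hdiv, x', hx', hz⟩ := h (RatFunc k) hk2
    (fun i => MvPolynomial.aeval s (H i)) (fun i => by
      have h1 := (hH i).aeval s hsh
      rwa [one_mul] at h1)
  let iB : Algebra k E := ((algebraMap (RatFunc k) E).comp (algebraMap k (RatFunc k))).toAlgebra
  have iT : IsScalarTower k (RatFunc k) E := IsScalarTower.of_algebraMap_eq (fun _ => rfl)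
  obtain ⟨x, hxd⟩ : ∃ x : Fin (n + 2) → E, x = fun i => MvPolynomial.aeval x' (s i) := ⟨_, rfl⟩
  have hx1 : ∀ i : Fin (n + 1), x i.castSucc = x' i := by
    intro i
    rw [hxd]
    show MvPolynomial.aeval x' (s i.castSucc) = x' i
    rw [hs1, MvPolynomial.aeval_X]
  have hx0 : x 0 = x' 0 := hx1 0
  have hx2 : x (Fin.last (n + 1)) = algebraMap (RatFunc k) E RatFunc.X * x' 0 := by
    rw [hxd]
    show MvPolynomial.aeval x' (s (Fin.last (n + 1))) = _
    rw [hs2, map_mul, MvPolynomial.aeval_X, MvPolynomial.aeval_C]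
  have hxz : ∀ i, MvPolynomial.aeval x (H i) = 0 := by
    intro i
    have h1 := MvPolynomial.comp_aeval_apply (R := k) (f := s)
      ((MvPolynomial.aeval x' : MvPolynomial (Fin (n + 1)) (RatFunc k) →ₐ[RatFunc k] E).restrictScalars k)
      (H i)
    have h2 : ((MvPolynomial.aeval x' : MvPolynomial (Fin (n + 1)) (RatFunc k) →ₐ[RatFunc k]
      E).restrictScalars k) (MvPolynomial.aeval s (H i)) = 0 := hz i
    rw [h2] at h1
    rw [hxd]
    exact h1.symm
  have hne : x' 0 ≠ 0 := by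
    intro h0
    have h1 := hV E x hxz (hx0.trans h0) (by rw [hx2, h0, mul_zero])
    apply hx'
    funext i
    rw [← hx1 i, h1]
    rfl
  refine ⟨E, iE, iB, iA, iT, hfin, hdiv, fun i => (x' 0)⁻¹ * x i, fun i => ?_, ?_, ?_⟩
  · rw [step_smul (hH i), hxz i, mul_zero]
  · beta_reduce
    rw [hx0, inv_mul_cancel₀ hne]
  · beta_reduce
    rw [hx2]
    field_simp

theorem pf_step {ℓ : ℕ} (hℓ : ℓ.Prime) {D n : ℕ} (hD : ¬ ℓ ∣ D) (h : Pf.{u} ℓ D n) :
    Pf.{u} ℓ D (n + 1) := by
  intro K _ hK f hf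
  have hk : (ℓ : RatFunc K) ≠ 0 := by
    intro h1
    apply hK
    apply (algebraMap K (RatFunc K)).injective
    rw [map_natCast, map_zero, h1]
  have hV : ∀ (Ω : Type u) [Field Ω] [Algebra (RatFunc K) Ω] (x : Fin (n + 2) → Ω),
      (∀ i : Fin n, MvPolynomial.aeval x (stH D f i.castSucc) = 0) → x 0 = 0 →
      x (Fin.last (n + 1)) = 0 → x = 0 := by
    intro Ω _ _ x hx h0 hl
    refine step_emp hf x h0 (fun j => ?_)
    refine Fin.lastCases ?_ (fun i => ?_) j
    · left
      rw [Fin.succ_last]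
      exact hl
    · exact Or.inr (hx i)
  have hW : ∀ (Ω : Type u) [Field Ω] [Algebra (RatFunc K) Ω] (x : Fin (n + 2) → Ω),
      (∀ i : Fin n, MvPolynomial.aeval x (stH D f i.castSucc) = 0) →
      MvPolynomial.aeval x (stH D f (Fin.last n)) = 0 → x 0 = 0 → x = 0 := by
    intro Ω _ _ x hx hl h0
    refine step_emp hf x h0 (fun j => ?_)
    refine Fin.lastCases ?_ (fun i => ?_) j
    · exact Or.inr hl
    · exact Or.inr (hx i)
  obtain ⟨E, iE, iB, iA, iT, hfin, hdiv, x, hx, hx0, hx1⟩ := step_up h hk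
    (fun i : Fin n => stH D f i.castSucc) (fun i => stH_hom hf _) hV
  obtain ⟨κ, iκ, iκ2, hκ1, hκ2, y, hy, hy1, hy2⟩ := curve hℓ
    (fun i : Fin n => stH D f i.castSucc) hD (fun i => stH_hom hf _) 0 (Fin.last (n + 1)) hV
    (stH D f (Fin.last n)) (stH_hom hf _) hW hdiv x hx hx0 hx1
  obtain ⟨κ', jκ, jκ2, hκ3, hκ4, y', hy', hy3⟩ := spec_gen hℓ hK (E := κ) hκ2 y hy
  refine ⟨κ', jκ, jκ2, hκ3, hκ4, y', hy', fun j => ?_⟩
  have h1 := hy3 D (stF D f j) (stF_hom hf j) (by
    rw [← stH_eval]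
    refine Fin.lastCases ?_ (fun i => ?_) j
    · exact hy2
    · exact hy1 i)
  rwa [stF_const] at h1

end Pool.Agent.PSG
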